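import Pool.Agent.Run7.h696.CA.TUPBL
import Pool.Agent.Run7.h696.CF.FinB
import Pool.Agent.Run7.h811.HG.TGJ
import Pool.Agent.Run7.h225.HG.JW

/-!
# The torsor of the families at the correlated fibres, at complex points
-/

set_option autoImplicit false

open PowerSeries Matrix
open Pool.Agent.Y113 hiding Bm
open Pool.Agent.Y120.GF Pool.Agent.Y120.GH Pool.Agent.Y119.HZ
open Pool.Agent.Y119.HY (Am Jm Bm cm E Hf Hc Yf QD Ac_nil E_zero E_mul_neg)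
open Run7.h893.HO
open Pool.Agent.Run7.h225.HG Pool.Agent.Run7.h225.HG.SYS2 Pool.Agent.Run7.h696.CF
open Pool.Agent.Run7.h468.CF

namespace Pool.Agent.Run7.h696.CA

variable {r : ℕ} {n : Fin r → ℕ} {Q : Fin r → Polynomial ℚ} {gq cq : Fin r → ℚ}
  {W : ∀ j, Matrix (Fin (n j)) (Fin (n j)) ℚ⟦X⟧} {L : ℝ}

/-- the product of the groups -/
def TG0 (n : Fin r → ℕ) (Q : Fin r → Polynomial ℚ) : Set (Matrix (Fin (∑ j, n j)) (Fin (∑ j, n j)) ℂ) :=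
  {Z | ∃ X : ∀ j, Matrix (Fin (n j)) (Fin (n j)) ℂ, (∀ j, X j ∈ Gp (n j) (Q j)) ∧ Z = blk n ℂ X}

lemma TG0_eq : TG0 n Q = TJ0 n Q 0 := by
  have h : ∀ j, Gp (n j) (Q j) = Pool.Agent.Run7.h225.HG.TJ (n j) (Q j) (Complex.log (1 - 0)) := by
    intro j
    ext X
    unfold Gp Pool.Agent.Run7.h225.HG.TJ
    rw [Set.mem_setOf_eq, Set.mem_setOf_eq, sub_zero, Complex.log_one, mul_zero, Complex.exp_zero]
  unfold TG0 TJ0
  simp only [h]

/-- the holomorphic part -/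
lemma Hf_j (hS : ∀ j, Sys (n j) (Am (n j)) (Bm (n j) (Q j)) (Hp (n j) (Q j)) (W j))
    (hD : DatL n Q (fun j => (gq j : ℝ)) (fun j => (cq j : ℝ)) L) (j : Fin r) {z : ℂ} (hz : ‖z‖ < 1 / L) :
    Hf (Hcg (HH (gq j) (cq j) (Am (n j)) (Hp (n j) (Q j)))) z = Fj (n j) (Q j) (gq j : ℝ) (cq j : ℝ) z := by
  have hc0 : cq j ≠ 0 := by
    have := hD.c0 j
    exact_mod_cast this
  have hgc : 0 ≤ cq j * gq j := by
    have := hD.gc j
    exact_mod_cast this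
  rw [Hf_HH (hS j) hc0 hgc (Lsmall hD.L0 (hD.cL j) hz)]
  unfold Fj
  rw [Hcg_Hp, Complex.ofReal_ratCast, Complex.ofReal_ratCast]

lemma Hf_b (hS : ∀ j, Sys (n j) (Am (n j)) (Bm (n j) (Q j)) (Hp (n j) (Q j)) (W j))
    (hD : DatL n Q (fun j => (gq j : ℝ)) (fun j => (cq j : ℝ)) L) {z : ℂ} (hz : ‖z‖ < 1 / L) :
    Hf (Hcg (blk n ℚ⟦X⟧ fun j => HH (gq j) (cq j) (Am (n j)) (Hp (n j) (Q j)))) z =
      blk n ℂ fun j => Fj (n j) (Q j) (gq j : ℝ) (cq j : ℝ) z := by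
  rw [BLK.Hcg_blk, BLK.Hf_blk]
  congr 1
  funext j
  exact Hf_j hS hD j hz

lemma E_b (c : ℂ) : E (cm (blk n ℚ fun j => Am (n j))) c = blk n ℂ fun j => E (cm (Am (n j))) c := by
  rw [BLK.cm_blk]
  exact BLK.E_blk (fun j => cm (Am (n j))) (fun j => Ac_nil) c

lemma sysL_b (hS : ∀ j, Sys (n j) (Am (n j)) (Bm (n j) (Q j)) (Hp (n j) (Q j)) (W j))
    (hD : DatL n Q (fun j => (gq j : ℝ)) (fun j => (cq j : ℝ)) L) :
    SysL L (∑ j, n j) (blk n ℚ fun j => Am (n j))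
      (blk n ℚ⟦X⟧ fun j => HH (gq j) (cq j) (Am (n j)) (Hp (n j) (Q j)))
      (blk n ℚ⟦X⟧ fun j => WW (gq j) (cq j) (Am (n j)) (W j)) := by
  have hc0 : ∀ j, cq j ≠ 0 := fun j => by
    have := hD.c0 j
    exact_mod_cast this
  exact Pool.Agent.Run7.h468.CF.p_BLKL L r n _ _ _ fun j => sysL_HH (hS j) (hc0 j) (hD.cL j)

/-- the functional relations vanish on the group -/
theorem rel_van (hS : ∀ j, Sys (n j) (Am (n j)) (Bm (n j) (Q j)) (Hp (n j) (Q j)) (W j))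
    (hD : DatL n Q (fun j => (gq j : ℝ)) (fun j => (cq j : ℝ)) L)
    {R : MvPolynomial (Fin ((∑ j, n j) * (∑ j, n j))) (Polynomial ℚ)}
    (hR : MvPolynomial.aeval (hfg (blk n ℚ⟦X⟧ fun j => HH (gq j) (cq j) (Am (n j)) (Hp (n j) (Q j)))) R = 0) (z : ℂ)
    {X : ∀ j, Matrix (Fin (n j)) (Fin (n j)) ℂ} (hX : ∀ j, X j ∈ Gp (n j) (Q j)) :
    MvPolynomial.eval₂ (evq z) (fun a => blk n ℂ X (ix (∑ j, n j) a).1 (ix (∑ j, n j) a).2) R = 0 := by
  have hL : 0 < L := hD.L0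
  have hSys := sysL_b hS hD
  have hN : cm (blk n ℚ fun j => Am (n j)) ^ (∑ j, n j) = 0 := cm_nilG hSys.nil
  have hrel : PR (cm (blk n ℚ fun j => Am (n j))) R ∈ RelL L (ZZB n Q (fun j => (gq j : ℝ)) (fun j => (cq j : ℝ))) := by
    intro y hy hy1
    rw [ev_PR]
    have hyn : ‖(y : ℂ)‖ < 1 / L := by rwa [Complex.norm_real, Real.norm_of_nonneg hy.le]
    have e1 : ZZB n Q (fun j => (gq j : ℝ)) (fun j => (cq j : ℝ)) y *
        E (cm (blk n ℚ fun j => Am (n j))) (-Complex.log y) =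
        Hf (Hcg (blk n ℚ⟦X⟧ fun j => HH (gq j) (cq j) (Am (n j)) (Hp (n j) (Q j)))) (y : ℂ) := by
      rw [Hf_b hS hD hyn, E_b]
      unfold ZZB
      rw [← map_mul]
      congr 1
      funext j
      rw [Pi.mul_apply, Matrix.mul_assoc, E_mul_neg Ac_nil, mul_one]
    rw [e1]
    have hy' : L < 1 / y := by
      rw [lt_div_iff₀ hL] at hy1
      rw [lt_div_iff₀ hy]
      linarith
    have h1 := (ev_aeval_G hL hSys hy' R).2
    rw [hR] at h1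
    have h2 : ev (1 / y) (0 : ℚ⟦X⟧) = 0 := by
      unfold ev
      simp
    rw [h2, Complex.ofReal_zero, one_div_one_div] at h1
    have h3 : (fun j => ((ev (1 / y) (hfg (blk n ℚ⟦X⟧ fun j => HH (gq j) (cq j) (Am (n j)) (Hp (n j) (Q j))) j) : ℝ) : ℂ)) =
        fun j => Hf (Hcg (blk n ℚ⟦X⟧ fun j => HH (gq j) (cq j) (Am (n j)) (Hp (n j) (Q j)))) (y : ℂ)
          (ix (∑ j, n j) j).1 (ix (∑ j, n j) j).2 := by
      funext j
      unfold hfg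
      rw [ev_H, one_div_one_div]
    rw [h3] at h1
    exact h1.symm
  have h1 := rel_constB t_asy p_EXT hD hrel hX z 0
  rw [ev_PR, neg_zero, E_b] at h1
  have h2 : blk n ℂ X * (blk n ℂ fun j => E (cm (Am (n j))) 0) = blk n ℂ X := by
    rw [← map_mul]
    congr 1
    funext j
    rw [Pi.mul_apply, E_zero Ac_nil, mul_one]
  rw [h2] at h1
  exact h1

/-- **the torsor at complex points** -/
theorem tvl (hS : ∀ j, Sys (n j) (Am (n j)) (Bm (n j) (Q j)) (Hp (n j) (Q j)) (W j))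
    (hD : DatL n Q (fun j => (gq j : ℝ)) (fun j => (cq j : ℝ)) L) :
    TVL L (blk n ℚ⟦X⟧ fun j => HH (gq j) (cq j) (Am (n j)) (Hp (n j) (Q j))) (fun _ => TG0 n Q) := by
  refine ⟨fun z hz => ?_, fun z _ => ?_, fun z hz X hX => ?_⟩
  · rw [Hf_b hS hD hz]
    refine ⟨_, fun j => ?_, rfl⟩
    have h1 := Fj_mem (hD.q j) (hD.tr j) (g := (gq j : ℝ)) (c := (cq j : ℝ))
      (Lsmall hD.L0 (hD.cL j) hz) 0
    rw [E_zero Ac_nil, mul_one] at h1
    exact h1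
  · show Pool.Agent.Y118.UL.Irr {y : Fin ((∑ j, n j) * (∑ j, n j)) → ℂ |
      ∃ X ∈ TG0 n Q, y = fun a => X (ix (∑ j, n j) a).1 (ix (∑ j, n j) a).2}
    rw [TG0_eq]
    exact Pool.Agent.Run7.h811.HG.irr_joint 0
  · obtain ⟨X, hX, rfl⟩ := hX
    intro R hR
    exact rel_van hS hD hR z hX

end Pool.Agent.Run7.h696.CA
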