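import Pool.Agent.Run7.h696.CA.TUPC
import Pool.Agent.Run7.h696.CA.TV
import Pool.Agent.Run7.h696.CF.FinC

/-!
# Correlated families at algebraic points
-/

set_option autoImplicit false

open PowerSeries Matrix
open Pool.Agent.Y113 hiding Bm
open Pool.Agent.Y120.GF Pool.Agent.Y120.GH Pool.Agent.Y119.HZ
open Pool.Agent.Y119.HY (Am Jm Bm cm E Hf Hc Yf QD Ac_nil E_zero E_mul_neg E_add)
open Run7.h893.HO
open Pool.Agent.Run7.h225.HG Pool.Agent.Run7.h696.CF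

namespace Pool.Agent.Run7.h696.CA

/-- the logarithm of `a ξ + b` for a logarithm `l` of `ξ - τ` -/
noncomputable def lgl (a b : ℚ) (τ : ℤ) (ξ l : ℂ) : ℂ :=
  l + Complex.log (a : ℂ) + Complex.log (((a : ℂ) * ξ + b) / ((a : ℂ) * (ξ - τ)))

theorem Y_shift {n : ℕ} {Q : Polynomial ℚ} {a b : ℚ} (ha : a ≠ 0) {τ : ℤ} {ξ : ℂ} (h0 : ξ - τ ≠ 0)
    (h1 : (a : ℂ) * ξ + b ≠ 0) (l : ℂ) :
    Hf (Hc n Q) (1 / ((a : ℂ) * ξ + b)) * E (cm (Am n)) (-lgl a b τ ξ l) =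
      Fj n Q ((-b / a - τ : ℚ) : ℝ) ((1 / a : ℚ) : ℝ) (1 / (ξ - τ)) * E (cm (Am n)) (-l) *
        E (cm (Am n)) (-Complex.log (a : ℂ)) := by
  have hac : (a : ℂ) ≠ 0 := by exact_mod_cast ha
  have hg : (((-b / a - τ : ℚ) : ℝ) : ℂ) = -b / a - τ := by push_cast; rfl
  have hc : (((1 / a : ℚ) : ℝ) : ℂ) = 1 / a := by push_cast; rfl
  have e1 : (1 : ℂ) - (((-b / a - τ : ℚ) : ℝ) : ℂ) * (1 / (ξ - τ)) = ((a : ℂ) * ξ + b) / ((a : ℂ) * (ξ - τ)) := by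
    rw [hg]
    field_simp
    ring
  have e2 : (((1 / a : ℚ) : ℝ) : ℂ) * (1 / (ξ - τ)) / (1 - (((-b / a - τ : ℚ) : ℝ) : ℂ) * (1 / (ξ - τ))) =
      1 / ((a : ℂ) * ξ + b) := by
    rw [e1, hc]
    field_simp
  unfold Fj lgl
  rw [e2, e1, Matrix.mul_assoc, Matrix.mul_assoc, ← E_add Ac_nil, ← E_add Ac_nil]
  congr 2
  ring

variable {r : ℕ} {n : Fin r → ℕ} {Q : Fin r → Polynomial ℚ} {a b : Fin r → ℚ} {τ : ℤ}
  {W : ∀ j, Matrix (Fin (n j)) (Fin (n j)) ℚ⟦X⟧} {L₀ : ℕ}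

/-- the exceptional tuples -/
def ExcC {r : ℕ} (n : Fin r → ℕ) (Q : Fin r → Polynomial ℚ) (a b : Fin r → ℚ) (τ : ℤ) (δ d : ℕ) (V : Submodule ℚ ℂ)
    {k : ℕ} (Ω : Fin k → ∀ j, Matrix (Fin (n j)) (Fin (n j)) ℂ) (ξ : Fin k → ℂ) : Prop :=
  ∃ ℓ : Fin k → ℂ, (∀ i, Complex.exp (ℓ i) = ξ i - τ) ∧
    ∃ L : IntermediateField ℚ ℂ, FiniteDimensional ℚ L ∧ Module.finrank ℚ L ≤ d ∧
    ∃ P : MvPolynomial (Cj n k) ℂ, P.totalDegree ≤ δ ∧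
      (∀ s, P.coeff s ∈ Submodule.span L (V : Set ℂ)) ∧
      MvPolynomial.aeval (pjc ℓ fun i j => Hf (Hc (n j) (Q j)) (1 / ((a j : ℂ) * ξ i + b j)) *
        E (cm (Am (n j))) (-lgl (a j) (b j) τ (ξ i) (ℓ i)) * Ω i j) P = 0 ∧
      ∃ (l : Fin k → ℂ) (g : Fin k → ∀ j, Matrix (Fin (n j)) (Fin (n j)) ℂ),
        (∀ i j, g i j ∈ Gp (n j) (Q j)) ∧ MvPolynomial.aeval (pjc l fun i j => g i j * Ω i j) P ≠ 0

/-- the matrices of constants -/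
noncomputable def Om (n : Fin r → ℕ) (a : Fin r → ℚ) (Ω : ∀ j, Matrix (Fin (n j)) (Fin (n j)) ℂ) :
    Matrix (Fin (∑ j, n j)) (Fin (∑ j, n j)) ℂ :=
  blk n ℂ fun j => E (cm (Am (n j))) (-Complex.log (a j : ℂ)) * Ω j

/-- nonzero denominators -/
lemma ne_of_big {a b : ℚ} (ha : a ≠ 0) {τ : ℤ} {L : ℝ}
    (hL : |((1 / a : ℚ) : ℝ)| + |((-b / a - τ : ℚ) : ℝ)| ≤ L) {ξ : ℂ} (h : L < ‖ξ - τ‖) :
    ξ - τ ≠ 0 ∧ (a : ℂ) * ξ + b ≠ 0 ∧ 1 < ‖(a : ℂ) * ξ + b‖ := by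
  have h0 : 0 < ‖ξ - τ‖ := lt_of_le_of_lt ((add_nonneg (abs_nonneg _) (abs_nonneg _)).trans hL) h
  have hac : (a : ℂ) ≠ 0 := by exact_mod_cast ha
  have haR : (0 : ℝ) < |(a : ℝ)| := abs_pos.2 (by exact_mod_cast ha)
  have e1 : (a : ℂ) * ξ + b = a * ((ξ - τ) - (((-b / a - τ : ℚ) : ℝ) : ℂ)) := by
    push_cast
    field_simp
    ring
  have h1 : 1 < ‖(a : ℂ) * ξ + b‖ := by
    rw [e1, norm_mul]
    have h2 : ‖(a : ℂ)‖ = |(a : ℝ)| := by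
      rw [← Complex.ofReal_ratCast, Complex.norm_real, Real.norm_eq_abs]
    have h3 : ‖ξ - τ‖ - |((-b / a - τ : ℚ) : ℝ)| ≤ ‖(ξ - τ) - (((-b / a - τ : ℚ) : ℝ) : ℂ)‖ := by
      have h4 := norm_sub_norm_le (ξ - τ) (((-b / a - τ : ℚ) : ℝ) : ℂ)
      rwa [Complex.norm_real, Real.norm_eq_abs] at h4
    have h5 : |((1 / a : ℚ) : ℝ)| = 1 / |(a : ℝ)| := by
      push_cast
      rw [abs_div, abs_one]
    have h6 : 1 / |(a : ℝ)| < ‖(ξ - τ) - (((-b / a - τ : ℚ) : ℝ) : ℂ)‖ := by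
      rw [← h5]
      linarith
    rw [h2]
    rw [div_lt_iff₀ haR] at h6
    linarith
  refine ⟨norm_pos_iff.1 h0, fun h2 => ?_, h1⟩
  rw [h2, norm_zero] at h1
  linarith

/-- from exceptional tuples to exceptional tuples of the direct sum -/
theorem excV_of (hS : ∀ j, Sys (n j) (Am (n j)) (Bm (n j) (Q j)) (Hp (n j) (Q j)) (W j))
    (hD : DatL n Q (fun j => ((-b j / a j - τ : ℚ) : ℝ)) (fun j => ((1 / a j : ℚ) : ℝ)) L₀) (ha : ∀ j, a j ≠ 0)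
    {δ d k : ℕ} {V : Submodule ℚ ℂ} {Ω : Fin k → ∀ j, Matrix (Fin (n j)) (Fin (n j)) ℂ} {ξ : Fin k → ℂ}
    (hbig : ∀ i, (L₀ : ℝ) < ‖ξ i - τ‖) (h : ExcC n Q a b τ δ d V Ω ξ) :
    ExcV (blk n ℚ fun j => Am (n j))
      (blk n ℚ⟦X⟧ fun j => HH (-b j / a j - τ) (1 / a j) (Am (n j)) (Hp (n j) (Q j))) (fun _ => TG0 n Q) δ d V
      (fun i => Om n a (Ω i)) fun i => ξ i - τ := by
  obtain ⟨ℓ, hℓ, L, hL1, hL2, P, hPd, hPc, hP0, l, g, hg, hPg⟩ := h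
  have hL0 : (0 : ℝ) < L₀ := hD.L0
  have hz : ∀ i, ‖1 / (ξ i - τ)‖ < 1 / L₀ := by
    intro i
    rw [norm_div, norm_one]
    exact one_div_lt_one_div_of_lt hL0 (hbig i)
  refine ⟨ℓ, hℓ, L, hL1, hL2, MvPolynomial.rename (rc n k) P, (MvPolynomial.totalDegree_rename_le _ _).trans hPd, ?_, ?_, l,
    fun i => blk n ℂ fun j => g i j * E (cm (Am (n j))) (Complex.log (a j : ℂ) + l i), fun i => ⟨_, fun j => ?_, rfl⟩, ?_⟩
  · intro s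
    by_cases hs : ∃ s', s = Finsupp.mapDomain (rc n k) s'
    · obtain ⟨s', rfl⟩ := hs
      rw [MvPolynomial.coeff_rename_mapDomain _ (rc_inj k)]
      exact hPc s'
    · rw [MvPolynomial.coeff_rename_eq_zero]
      · exact Submodule.zero_mem _
      · intro u hu
        exact absurd ⟨u, hu.symm⟩ hs
  · rw [MvPolynomial.aeval_rename]
    have h1 : (fun i => Hf (Hcg (blk n ℚ⟦X⟧ fun j => HH (-b j / a j - τ) (1 / a j) (Am (n j)) (Hp (n j) (Q j))))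
        (1 / (ξ i - τ)) * E (cm (blk n ℚ fun j => Am (n j))) (-ℓ i) * Om n a (Ω i)) =
        fun i => blk n ℂ fun j => Hf (Hc (n j) (Q j)) (1 / ((a j : ℂ) * ξ i + b j)) *
          E (cm (Am (n j))) (-lgl (a j) (b j) τ (ξ i) (ℓ i)) * Ω i j := by
      funext i
      rw [Hf_b hS hD (hz i), E_b]
      unfold Om
      rw [← map_mul, ← map_mul]
      congr 1
      funext j
      obtain ⟨h2, h3, -⟩ := ne_of_big (ha j) (hD.cL j) (hbig i)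
      rw [Y_shift (ha j) h2 h3, Pi.mul_apply, Pi.mul_apply]
      simp only [Matrix.mul_assoc]
    rw [h1, pw_rc]
    exact hP0
  · exact Gp_mul (hg i j) (Gp_E (hD.q j) _)
  · rw [MvPolynomial.aeval_rename]
    have h1 : (fun i => (blk n ℂ fun j => g i j * E (cm (Am (n j))) (Complex.log (a j : ℂ) + l i)) *
        E (cm (blk n ℚ fun j => Am (n j))) (-l i) * Om n a (Ω i)) = fun i => blk n ℂ fun j => g i j * Ω i j := by
      funext i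
      rw [E_b]
      unfold Om
      rw [← map_mul, ← map_mul]
      congr 1
      funext j
      rw [Pi.mul_apply, Pi.mul_apply]
      have h4 : E (cm (Am (n j))) (Complex.log (a j : ℂ) + l i) * E (cm (Am (n j))) (-l i) *
          E (cm (Am (n j))) (-Complex.log (a j : ℂ)) = 1 := by
        rw [← E_add Ac_nil, ← E_add Ac_nil]
        have h5 : Complex.log (a j : ℂ) + l i + -l i + -Complex.log (a j : ℂ) = 0 := by ring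
        rw [h5, E_zero Ac_nil]
      calc _ = g i j * (E (cm (Am (n j))) (Complex.log (a j : ℂ) + l i) * E (cm (Am (n j))) (-l i) *
            E (cm (Am (n j))) (-Complex.log (a j : ℂ))) * Ω i j := by simp only [Matrix.mul_assoc]
        _ = _ := by rw [h4, mul_one]
    rw [h1, pw_rc]
    exact hPg

/-- **almost all tuples** -/
theorem tup_ca (hL : 1 ≤ L₀) (hS : ∀ j, Sys (n j) (Am (n j)) (Bm (n j) (Q j)) (Hp (n j) (Q j)) (W j))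
    (hD : DatL n Q (fun j => ((-b j / a j - τ : ℚ) : ℝ)) (fun j => ((1 / a j : ℚ) : ℝ)) L₀) (ha : ∀ j, a j ≠ 0)
    (k m δ d D : ℕ) (hm : 1 ≤ m) :
    ∃ c : ℝ, 0 < c ∧ ∃ C : ℝ, 0 ≤ C ∧ ∀ V : Submodule ℚ ℂ, Module.Finite ℚ V → Module.finrank ℚ V ≤ D →
      ∀ (Ω : Fin k → ∀ j, Matrix (Fin (n j)) (Fin (n j)) ℂ) (M : ℕ), 1 ≤ M →
      {ξ : Fin k → ℂ | (∀ i, Pool.Agent.Y916.Sl.SInt m M (ξ i)) ∧
        ((∃ i, ‖ξ i - τ‖ ≤ L₀) ∨ ExcC n Q a b τ δ d V Ω ξ)}.Finite ∧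
      ({ξ : Fin k → ℂ | (∀ i, Pool.Agent.Y916.Sl.SInt m M (ξ i)) ∧
        ((∃ i, ‖ξ i - τ‖ ≤ L₀) ∨ ExcC n Q a b τ δ d V Ω ξ)}.ncard : ℝ) ≤
        C * (M : ℝ) ^ (-c) * ({ξ : ℂ | Pool.Agent.Y916.Sl.SInt m M ξ}.ncard : ℝ) ^ k := by
  obtain ⟨c, hc, C, hC, h⟩ := tupA1 hL (sysL_b (gq := fun j => -b j / a j - τ) (cq := fun j => 1 / a j) hS hD)
    (blk n ℚ fun j => Am (n j)) (tvl (gq := fun j => -b j / a j - τ) (cq := fun j => 1 / a j) hS hD) τ k m δ d D hm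
  refine ⟨c, hc, C, hC, fun V hVf hV Ω M hM => ?_⟩
  obtain ⟨h1, h2⟩ := h V hVf hV (fun i => Om n a (Ω i)) M hM
  have hsub : {ξ : Fin k → ℂ | (∀ i, Pool.Agent.Y916.Sl.SInt m M (ξ i)) ∧
        ((∃ i, ‖ξ i - τ‖ ≤ L₀) ∨ ExcC n Q a b τ δ d V Ω ξ)} ⊆
      {ξ : Fin k → ℂ | (∀ i, Pool.Agent.Y916.Sl.SInt m M (ξ i)) ∧
        ((∃ i, ‖ξ i - τ‖ ≤ L₀) ∨ ExcV (blk n ℚ fun j => Am (n j))
          (blk n ℚ⟦X⟧ fun j => HH (-b j / a j - τ) (1 / a j) (Am (n j)) (Hp (n j) (Q j))) (fun _ => TG0 n Q) δ d V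
          (fun i => Om n a (Ω i)) fun i => ξ i - τ)} := by
    rintro ξ ⟨hξ, hE⟩
    refine ⟨hξ, ?_⟩
    by_cases hs : ∃ i, ‖ξ i - τ‖ ≤ L₀
    · exact Or.inl hs
    · have hE' := hE.resolve_left hs
      push Not at hs
      exact Or.inr (excV_of hS hD ha hs hE')
  refine ⟨h1.subset hsub, le_trans ?_ h2⟩
  exact_mod_cast Set.ncard_le_ncard hsub h1

end Pool.Agent.Run7.h696.CA
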