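import Pool.Agent.Run7.h696.CA.FinM
import Pool.Agent.Run7.h696.CP.All
import Pool.Agent.Run7.h13.CA.SHUFH
import Pool.Agent.Run7.h13.CA.LINZH
import Pool.Agent.Run7.h13.CA.LINH
import Pool.Agent.Run7.h792.CA.VALH
import Pool.Agent.Run7.h792.CA.JVVH
import Pool.Agent.Run7.h637.CA.PLWH
import Pool.Agent.Run7.h637.CA.JVIH

/-!
# Hyperlogarithms and correlated families at algebraic points: the theorem without hypotheses
-/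

set_option autoImplicit false

open PowerSeries Matrix
open Pool.Agent.Y113 hiding Bm
open Pool.Agent.Y120.GF Pool.Agent.Y120.GH Pool.Agent.Y119.HZ
open Pool.Agent.Y119.HY (Am Jm Bm cm E Hf Hc Yf QD Ac_nil E_zero E_mul_neg E_add)
open Run7.h893.HO
open Pool.Agent.Run7.h225.HG Pool.Agent.Run7.h696.CF Pool.Agent.Run7.h696.CP

namespace Pool.Agent.Run7.h696.CA

/-- all pieces -/
theorem pp : PP :=
  ⟨Pool.Agent.Run7.h13.CA.p_SHUFH, Pool.Agent.Run7.h13.CA.p_LINZH, Pool.Agent.Run7.h379.CP.p_INDH,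
    Pool.Agent.Run7.h13.CA.p_LINH, Pool.Agent.Run7.h792.CA.p_VALH, Pool.Agent.Run7.h637.CA.p_PLWH,
    Pool.Agent.Run7.h792.CA.p_JVVH, Pool.Agent.Run7.h637.CA.p_JVIH⟩

lemma nologs_aux {m : ℕ} {a : Fin m → ℤ} {N : ℕ} (hN : N = 0) {h : Fin N → ℚ⟦X⟧} (hNL : NoLogs a h) :
    ∀ h' : Fin 0 → ℚ⟦X⟧, NoLogs a h' := by
  subst hN
  intro h'
  rwa [Subsingleton.elim h' h]

/-- no logarithm is rational -/
theorem nologs0 {m : ℕ} {a : Fin m → ℤ} (ha : Function.Injective a) (ha0 : ∀ i, a i ≠ 0) {L : ℝ} (hL : 1 ≤ L)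
    (haL : ∀ i, |(a i : ℝ)| ≤ L) : ∀ h : Fin 0 → ℚ⟦X⟧, NoLogs a h := by
  have hD : DatL (r := 0) (fun j => j.elim0) (fun j => j.elim0) (fun j => ((Fin.elim0 j : ℚ) : ℝ))
      (fun j => ((Fin.elim0 j : ℚ) : ℝ)) L :=
    { q := fun j => j.elim0
      q' := fun j => j.elim0
      tr := fun j => j.elim0
      ty := fun j => j.elim0
      c0 := fun j => j.elim0
      gc := fun j => j.elim0
      L0 := by linarith
      cL := fun j => j.elim0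
      sep := fun j => j.elim0 }
  have h1 := nologs Pool.Agent.Run7.h56.CP.p_TOR Pool.Agent.Run7.h56.CP.p_DER Pool.Agent.Run7.h593.CP.p_WRO
    Pool.Agent.Run7.h593.CP.p_CHA Pool.Agent.Run7.h593.CP.p_RAT (r := 0) (n := fun j => j.elim0)
    (Q := fun j => j.elim0) (gq := fun j => j.elim0) (cq := fun j => j.elim0) (W := fun j => j.elim0)
    hL hD (fun j => j.elim0) ha ha0 haL
  exact nologs_aux (by simp) h1

variable {r : ℕ} {n : Fin r → ℕ} {Q : Fin r → Polynomial ℚ} {a b : Fin r → ℚ} {τ : ℤ}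
  {V' : ∀ j, Matrix (Fin (n j)) (Fin (n j)) ℚ⟦X⟧} {L₀ m : ℕ} {s : Fin m → ℤ}

/-- **almost all tuples** -/
theorem tup_cm' (hL : 1 ≤ L₀) (hS : ∀ j, Sys (n j) (Am (n j)) (Bm (n j) (Q j)) (Hp (n j) (Q j)) (V' j))
    (hD : DatL n Q (fun j => ((-b j / a j - τ : ℚ) : ℝ)) (fun j => ((1 / a j : ℚ) : ℝ)) L₀) (ha : ∀ j, a j ≠ 0)
    (hsi : Function.Injective s) (hs0 : ∀ i, s i ≠ 0) (hsL : ∀ i, |(s i : ℝ)| ≤ L₀)
    (k g δ d D W : ℕ) (hg : 1 ≤ g) :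
    ∃ c : ℝ, 0 < c ∧ ∃ C : ℝ, 0 ≤ C ∧ ∀ V : Submodule ℚ ℂ, Module.Finite ℚ V → Module.finrank ℚ V ≤ D →
      ∀ (Ω : Fin k → ∀ j, Matrix (Fin (n j)) (Fin (n j)) ℂ) (M : ℕ), 1 ≤ M →
      {ξ : Fin k → ℂ | (∀ i, Pool.Agent.Y916.Sl.SInt g M (ξ i)) ∧
        ((∃ i, ‖ξ i - τ‖ ≤ L₀) ∨ ExcM n Q a b τ s δ d W V Ω ξ)}.Finite ∧
      ({ξ : Fin k → ℂ | (∀ i, Pool.Agent.Y916.Sl.SInt g M (ξ i)) ∧
        ((∃ i, ‖ξ i - τ‖ ≤ L₀) ∨ ExcM n Q a b τ s δ d W V Ω ξ)}.ncard : ℝ) ≤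
        C * (M : ℝ) ^ (-c) * ({ξ : ℂ | Pool.Agent.Y916.Sl.SInt g M ξ}.ncard : ℝ) ^ k :=
  tup_cm pp Pool.Agent.Run7.h56.CP.p_TOR Pool.Agent.Run7.h56.CP.p_DER Pool.Agent.Run7.h593.CP.p_WRO
    Pool.Agent.Run7.h593.CP.p_CHA Pool.Agent.Run7.h593.CP.p_RAT
    (nologs0 hsi hs0 (L := L₀) (by exact_mod_cast hL) hsL) hL hS hD ha hsi hs0 hsL k g δ d D W hg

end Pool.Agent.Run7.h696.CA
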