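import Pool.Agent.Run7.h696.CA.PUSH
import Pool.Agent.Run7.h696.CA.FinA
import Pool.Agent.Run7.h696.CP.NLC

/-!
# Hyperlogarithms and correlated families at algebraic points
-/

set_option autoImplicit false

open PowerSeries Matrix
open Pool.Agent.Y113 hiding Bm
open Pool.Agent.Y120.GF Pool.Agent.Y120.GH Pool.Agent.Y119.HZ
open Pool.Agent.Y119.HY (Am Jm Bm cm E Hf Hc Yf QD Ac_nil E_zero E_mul_neg E_add)
open Run7.h893.HO
open Pool.Agent.Run7.h225.HG Pool.Agent.Run7.h696.CF Pool.Agent.Run7.h696.CP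
open Pool.Agent.Run7.h225.HP (n2 bl i0 i1 bl_cases bl_00 bl_11 bl_mul Hf_bl E_bl)

namespace Pool.Agent.Run7.h696.CA

section coord

variable {n p m W k : ℕ}

/-- the coordinates -/
def rh (e : Wd m W → Fin p × Fin p) (k n : ℕ) :
    Jx (fun _ : Fin k => n) ⊕ Fin k × Wd m W → Jx (fun _ : Fin k => ∑ j, n2 n p j)
  | Sum.inl ⟨i, none⟩ => ⟨i, none⟩
  | Sum.inl ⟨i, some q⟩ => ⟨i, some (i0 n p q.1, i0 n p q.2)⟩
  | Sum.inr (i, w) => ⟨i, some (i1 n p (e w).1, i1 n p (e w).2)⟩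

lemma pw_rh (e : Wd m W → Fin p × Fin p) (l : Fin k → ℂ) (X : Fin k → Matrix (Fin n) (Fin n) ℂ)
    (Y : Fin k → Matrix (Fin p) (Fin p) ℂ) :
    pw (n := fun _ : Fin k => ∑ j, n2 n p j) l (fun i => bl (X i) (Y i)) ∘ rh e k n =
      Sum.elim (pw (n := fun _ : Fin k => n) l X) fun q => Y q.1 (e q.2).1 (e q.2).2 := by
  funext v
  rcases v with ⟨i, _ | q⟩ | ⟨i, w⟩
  · rfl
  · exact bl_00 _ _ _ _
  · exact bl_11 _ _ _ _

/-- coefficients of renamed polynomials -/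
lemma coeff_rename_mem {σ τ K : Type} [Field K] [Algebra K ℂ] (V : Submodule K ℂ) (f : σ → τ) (P : MvPolynomial σ ℂ)
    (h : ∀ s, P.coeff s ∈ V) (s : τ →₀ ℕ) : (MvPolynomial.rename f P).coeff s ∈ V := by
  classical
  have h1 : MvPolynomial.rename f P = ∑ u ∈ P.support, MvPolynomial.monomial (Finsupp.mapDomain f u) (P.coeff u) := by
    conv_lhs => rw [P.as_sum, map_sum]
    refine Finset.sum_congr rfl fun u _ => ?_
    rw [MvPolynomial.rename_monomial]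
  rw [h1, MvPolynomial.coeff_sum]
  refine V.sum_mem fun u _ => ?_
  rw [MvPolynomial.coeff_monomial]
  split_ifs
  · exact h u
  · exact V.zero_mem

lemma E0 (c : ℂ) : E (cm (0 : Matrix (Fin p) (Fin p) ℚ)) c = 1 := by
  rw [Pool.Agent.Y119.HY.cm_zero]
  unfold E
  rcases Nat.eq_zero_or_pos p with h | h
  · subst h
    ext i
    exact i.elim0
  · rw [Finset.sum_eq_single 0]
    · simp
    · intro i _ hi
      rw [zero_pow hi, smul_zero]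
    · intro h0
      exact absurd (Finset.mem_range.2 h) h0

lemma E_bl0 {N : Matrix (Fin n) (Fin n) ℚ} (hN0 : N ^ n = 0) (z : ℂ) :
    E (cm (bl N (0 : Matrix (Fin p) (Fin p) ℚ))) z = bl (E (cm N) z) 1 := by
  rcases Nat.eq_zero_or_pos p with h | h
  · subst h
    rw [E_bl hN0 (by ext i; exact i.elim0), E0]
  · rw [E_bl hN0 (zero_pow (by omega)), E0]

lemma Mx_e {c : Fin p → Fin p → Wd m W → ℚ} {e : Wd m W → Fin p × Fin p} (he : ∀ w, c (e w).1 (e w).2 = Pi.single w 1)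
    (x : List (Option (Fin m)) → ℂ) (w : Wd m W) : Mx c x (e w).1 (e w).2 = x w.1 := by
  show ∑ w', algebraMap ℚ ℂ (c (e w).1 (e w).2 w') * x w'.1 = x w.1
  rw [he, Finset.sum_eq_single w]
  · rw [Pi.single_eq_same, map_one, one_mul]
  · intro w' _ h
    rw [Pi.single_eq_of_ne h, map_zero, zero_mul]
  · intro h
    exact absurd (Finset.mem_univ w) h

end coord

variable {r : ℕ} {n : Fin r → ℕ} {Q : Fin r → Polynomial ℚ} {a b : Fin r → ℚ} {τ : ℤ}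
  {V' : ∀ j, Matrix (Fin (n j)) (Fin (n j)) ℚ⟦X⟧} {L₀ m : ℕ} {s : Fin m → ℤ}

/-- the exceptional tuples -/
def ExcM {r m : ℕ} (n : Fin r → ℕ) (Q : Fin r → Polynomial ℚ) (a b : Fin r → ℚ) (τ : ℤ) (s : Fin m → ℤ) (δ d W : ℕ)
    (V : Submodule ℚ ℂ) {k : ℕ} (Ω : Fin k → ∀ j, Matrix (Fin (n j)) (Fin (n j)) ℂ) (ξ : Fin k → ℂ) : Prop :=
  ∃ ℓ : Fin k → ℂ, (∀ i, Complex.exp (ℓ i) = ξ i - τ) ∧
    ∃ L : IntermediateField ℚ ℂ, FiniteDimensional ℚ L ∧ Module.finrank ℚ L ≤ d ∧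
    ∃ P : MvPolynomial (Cj n k ⊕ Fin k × Wd m W) ℂ, P.totalDegree ≤ δ ∧
      (∀ s, P.coeff s ∈ Submodule.span L (V : Set ℂ)) ∧
      MvPolynomial.aeval (Sum.elim (pjc ℓ fun i j => Hf (Hc (n j) (Q j)) (1 / ((a j : ℂ) * ξ i + b j)) *
        E (cm (Am (n j))) (-lgl (a j) (b j) τ (ξ i) (ℓ i)) * Ω i j) fun q => vz (1 / (ξ q.1 - τ)) (hy s q.2.1)) P = 0 ∧
      ∃ (l : Fin k → ℂ) (g : Fin k → ∀ j, Matrix (Fin (n j)) (Fin (n j)) ℂ) (x : Fin k → List (Option (Fin m)) → ℂ),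
        (∀ i j, g i j ∈ Gp (n j) (Q j)) ∧ (∀ i, Chr (x i)) ∧
        MvPolynomial.aeval (Sum.elim (pjc l fun i j => g i j * Ω i j) fun q => x q.1 q.2.1) P ≠ 0

lemma Hf_om (hS : ∀ j, Sys (n j) (Am (n j)) (Bm (n j) (Q j)) (Hp (n j) (Q j)) (V' j))
    (hD : DatL n Q (fun j => ((-b j / a j - τ : ℚ) : ℝ)) (fun j => ((1 / a j : ℚ) : ℝ)) L₀) (ha : ∀ j, a j ≠ 0)
    (Ω : ∀ j, Matrix (Fin (n j)) (Fin (n j)) ℂ) {ξ : ℂ} (hbig : (L₀ : ℝ) < ‖ξ - τ‖) (ℓ : ℂ) :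
    Hf (Hcg (blk n ℚ⟦X⟧ fun j => HH (-b j / a j - τ) (1 / a j) (Am (n j)) (Hp (n j) (Q j))))
        (1 / (ξ - τ)) * E (cm (blk n ℚ fun j => Am (n j))) (-ℓ) * Om n a Ω =
      blk n ℂ fun j => Hf (Hc (n j) (Q j)) (1 / ((a j : ℂ) * ξ + b j)) *
          E (cm (Am (n j))) (-lgl (a j) (b j) τ ξ ℓ) * Ω j := by
  have hL0 : (0 : ℝ) < L₀ := hD.L0
  have hz : ‖1 / (ξ - τ)‖ < 1 / L₀ := by
    rw [norm_div, norm_one]
    exact one_div_lt_one_div_of_lt hL0 hbig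
  rw [Hf_b hS hD hz, E_b]
  unfold Om
  rw [← map_mul, ← map_mul]
  congr 1
  funext j
  obtain ⟨h2, h3, -⟩ := ne_of_big (ha j) (hD.cL j) hbig
  rw [Y_shift (ha j) h2 h3, Pi.mul_apply, Pi.mul_apply]
  simp only [Matrix.mul_assoc]

lemma g_om (g : ∀ j, Matrix (Fin (n j)) (Fin (n j)) ℂ) (Ω : ∀ j, Matrix (Fin (n j)) (Fin (n j)) ℂ) (l : ℂ) :
    (blk n ℂ fun j => g j * E (cm (Am (n j))) (Complex.log (a j : ℂ) + l)) *
        E (cm (blk n ℚ fun j => Am (n j))) (-l) * Om n a Ω = blk n ℂ fun j => g j * Ω j := by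
  rw [E_b]
  unfold Om
  rw [← map_mul, ← map_mul]
  congr 1
  funext j
  rw [Pi.mul_apply, Pi.mul_apply]
  have h4 : E (cm (Am (n j))) (Complex.log (a j : ℂ) + l) * E (cm (Am (n j))) (-l) *
      E (cm (Am (n j))) (-Complex.log (a j : ℂ)) = 1 := by
    rw [← E_add Ac_nil, ← E_add Ac_nil]
    have h5 : Complex.log (a j : ℂ) + l + -l + -Complex.log (a j : ℂ) = 0 := by ring
    rw [h5, E_zero Ac_nil]
  calc _ = g j * (E (cm (Am (n j))) (Complex.log (a j : ℂ) + l) * E (cm (Am (n j))) (-l) *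
        E (cm (Am (n j))) (-Complex.log (a j : ℂ))) * Ω j := by simp only [Matrix.mul_assoc]
    _ = _ := by rw [h4, mul_one]

/-- from exceptional tuples to exceptional tuples of the direct sum -/
theorem excM_of (hS : ∀ j, Sys (n j) (Am (n j)) (Bm (n j) (Q j)) (Hp (n j) (Q j)) (V' j))
    (hD : DatL n Q (fun j => ((-b j / a j - τ : ℚ) : ℝ)) (fun j => ((1 / a j : ℚ) : ℝ)) L₀) (ha : ∀ j, a j ≠ 0)
    {p W : ℕ} {H' : Matrix (Fin p) (Fin p) ℚ⟦X⟧} {c : Fin p → Fin p → Wd m W → ℚ} {e : Wd m W → Fin p × Fin p}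
    (hc : ∀ i j, H' i j = ∑ w, PowerSeries.C (c i j w) * hy s w.1)
    (he : ∀ w, c (e w).1 (e w).2 = Pi.single w 1)
    {δ d k : ℕ} {V : Submodule ℚ ℂ} {Ω : Fin k → ∀ j, Matrix (Fin (n j)) (Fin (n j)) ℂ} {ξ : Fin k → ℂ}
    (hbig : ∀ i, (L₀ : ℝ) < ‖ξ i - τ‖) (h : ExcM n Q a b τ s δ d W V Ω ξ) :
    ExcV (bl (blk n ℚ fun j => Am (n j)) (0 : Matrix (Fin p) (Fin p) ℚ))
      (bl (blk n ℚ⟦X⟧ fun j => HH (-b j / a j - τ) (1 / a j) (Am (n j)) (Hp (n j) (Q j))) H')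
      (TP (fun _ => TG0 n Q) c) δ d V (fun i => bl (Om n a (Ω i)) 1) fun i => ξ i - τ := by
  obtain ⟨ℓ, hℓ, L, hL1, hL2, P, hPd, hPc, hP0, l, g, x, hg, hx, hPg⟩ := h
  have hN0 : (blk n ℚ fun j => Am (n j)) ^ (∑ j, n j) = 0 := (sysL_b (gq := fun j => -b j / a j - τ)
    (cq := fun j => 1 / a j) hS hD).nil
  refine ⟨ℓ, hℓ, L, hL1, hL2, MvPolynomial.rename (rh e k (∑ j, n j)) (MvPolynomial.rename (Sum.map (rc n k) id) P),
    (MvPolynomial.totalDegree_rename_le _ _).trans ((MvPolynomial.totalDegree_rename_le _ _).trans hPd),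
    coeff_rename_mem _ _ _ (coeff_rename_mem _ _ P hPc), ?_, l,
    fun i => bl (blk n ℂ fun j => g i j * E (cm (Am (n j))) (Complex.log (a j : ℂ) + l i)) (Mx c (x i)),
    fun i => ⟨_, ⟨_, fun j => Gp_mul (hg i j) (Gp_E (hD.q j) _), rfl⟩, _, hx i, rfl⟩, ?_⟩
  · rw [MvPolynomial.aeval_rename]
    have h1 : (fun i => Hf (Hcg (bl (blk n ℚ⟦X⟧ fun j => HH (-b j / a j - τ) (1 / a j) (Am (n j)) (Hp (n j) (Q j))) H'))
        (1 / (ξ i - τ)) * E (cm (bl (blk n ℚ fun j => Am (n j)) (0 : Matrix (Fin p) (Fin p) ℚ))) (-ℓ i) *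
        bl (Om n a (Ω i)) 1) =
        fun i => bl (blk n ℂ fun j => Hf (Hc (n j) (Q j)) (1 / ((a j : ℂ) * ξ i + b j)) *
          E (cm (Am (n j))) (-lgl (a j) (b j) τ (ξ i) (ℓ i)) * Ω i j) (Hf (Hcg H') (1 / (ξ i - τ))) := by
      funext i
      rw [E_bl0 hN0, Hf_bl, bl_mul, bl_mul, mul_one, mul_one, Hf_om hS hD ha (Ω i) (hbig i)]
    rw [h1, pw_rh, MvPolynomial.aeval_rename, Sum.elim_comp_map, pw_rc]
    have h2 : ((fun q : Fin k × Wd m W => Hf (Hcg H') (1 / (ξ q.1 - τ)) (e q.2).1 (e q.2).2) ∘ id) =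
        fun q => vz (1 / (ξ q.1 - τ)) (hy s q.2.1) := by
      funext q
      have h3 : Hf (Hcg H') (1 / (ξ q.1 - τ)) (e q.2).1 (e q.2).2 =
          Pool.Agent.Y916.Al.evc (1 / (ξ q.1 - τ)) (H' (e q.2).1 (e q.2).2) := by
        unfold Hf
        rw [Matrix.of_apply]
        unfold Pool.Agent.Y119.HY.ps Pool.Agent.Y916.Al.evc
        exact tsum_congr fun k => rfl
      have h4 : H' (e q.2).1 (e q.2).2 = hy s q.2.1 := by
        rw [hc, he, Finset.sum_eq_single q.2]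
        · rw [Pi.single_eq_same, map_one, one_mul]
        · intro w' _ h
          rw [Pi.single_eq_of_ne h, map_zero, zero_mul]
        · intro h
          exact absurd (Finset.mem_univ q.2) h
      show Hf (Hcg H') (1 / (ξ q.1 - τ)) (e q.2).1 (e q.2).2 = _
      rw [h3, h4]
      rfl
    rw [h2]
    exact hP0
  · rw [MvPolynomial.aeval_rename]
    have h1 : (fun i => bl (blk n ℂ fun j => g i j * E (cm (Am (n j))) (Complex.log (a j : ℂ) + l i)) (Mx c (x i)) *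
        E (cm (bl (blk n ℚ fun j => Am (n j)) (0 : Matrix (Fin p) (Fin p) ℚ))) (-l i) * bl (Om n a (Ω i)) 1) =
        fun i => bl (blk n ℂ fun j => g i j * Ω i j) (Mx c (x i)) := by
      funext i
      rw [E_bl0 hN0, bl_mul, bl_mul, mul_one, mul_one, g_om]
    rw [h1, pw_rh, MvPolynomial.aeval_rename, Sum.elim_comp_map, pw_rc]
    have h2 : ((fun q : Fin k × Wd m W => Mx c (x q.1) (e q.2).1 (e q.2).2) ∘ id) = fun q => x q.1 q.2.1 := by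
      funext q
      exact Mx_e he _ _
    rw [h2]
    exact hPg

/-- direct sums -/
theorem sysL_bl {n p : ℕ} {L : ℝ} {N : Matrix (Fin n) (Fin n) ℚ} {H W : Matrix (Fin n) (Fin n) ℚ⟦X⟧}
    {N' : Matrix (Fin p) (Fin p) ℚ} {H' W' : Matrix (Fin p) (Fin p) ℚ⟦X⟧} (h : SysL L n N H W) (h' : SysL L p N' H' W') :
    SysL L (∑ j, n2 n p j) (bl N N') (bl H H') (bl W W') :=
  Pool.Agent.Run7.h468.CF.p_BLKL L 2 (n2 n p) _ _ _ fun j => by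
    fin_cases j
    · exact h
    · exact h'

/-- **almost all tuples** -/
theorem tup_cm (hP : PP) (hTOR : S_TOR) (hDER : S_DER) (hWRO : S_WRO) (hCHA : S_CHA) (hRAT : S_RAT)
    (hnl0 : ∀ h : Fin 0 → ℚ⟦X⟧, NoLogs s h) (hL : 1 ≤ L₀)
    (hS : ∀ j, Sys (n j) (Am (n j)) (Bm (n j) (Q j)) (Hp (n j) (Q j)) (V' j))
    (hD : DatL n Q (fun j => ((-b j / a j - τ : ℚ) : ℝ)) (fun j => ((1 / a j : ℚ) : ℝ)) L₀) (ha : ∀ j, a j ≠ 0)
    (hsi : Function.Injective s) (hs0 : ∀ i, s i ≠ 0) (hsL : ∀ i, |(s i : ℝ)| ≤ L₀)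
    (k g δ d D W : ℕ) (hg : 1 ≤ g) :
    ∃ c : ℝ, 0 < c ∧ ∃ C : ℝ, 0 ≤ C ∧ ∀ V : Submodule ℚ ℂ, Module.Finite ℚ V → Module.finrank ℚ V ≤ D →
      ∀ (Ω : Fin k → ∀ j, Matrix (Fin (n j)) (Fin (n j)) ℂ) (M : ℕ), 1 ≤ M →
      {ξ : Fin k → ℂ | (∀ i, Pool.Agent.Y916.Sl.SInt g M (ξ i)) ∧
        ((∃ i, ‖ξ i - τ‖ ≤ L₀) ∨ ExcM n Q a b τ s δ d W V Ω ξ)}.Finite ∧
      ({ξ : Fin k → ℂ | (∀ i, Pool.Agent.Y916.Sl.SInt g M (ξ i)) ∧
        ((∃ i, ‖ξ i - τ‖ ≤ L₀) ∨ ExcM n Q a b τ s δ d W V Ω ξ)}.ncard : ℝ) ≤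
        C * (M : ℝ) ^ (-c) * ({ξ : ℂ | Pool.Agent.Y916.Sl.SInt g M ξ}.ncard : ℝ) ^ k := by
  have hL1 : (1 : ℝ) ≤ L₀ := by exact_mod_cast hL
  obtain ⟨p, N', H', V'', c, e, hS', hc, he⟩ := hP.plw m s L₀ hL1 hsL W
  have hSys := sysL_b (gq := fun j => -b j / a j - τ) (cq := fun j => 1 / a j) hS hD
  have hNL := nologs hTOR hDER hWRO hCHA hRAT (gq := fun j => -b j / a j - τ) (cq := fun j => 1 / a j) hL1 hD hS hsi hs0 hsL
  obtain ⟨c₀, hc₀, C, hC, h⟩ := tupA1 hL (sysL_bl hSys hS')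
    (bl (blk n ℚ fun j => Am (n j)) (0 : Matrix (Fin p) (Fin p) ℚ))
    (tv_bl hP hL1 hsL hnl0 hSys hNL (tvl (gq := fun j => -b j / a j - τ) (cq := fun j => 1 / a j) hS hD) hc) τ k g δ d D hg
  refine ⟨c₀, hc₀, C, hC, fun V hVf hV Ω M hM => ?_⟩
  obtain ⟨h1, h2⟩ := h V hVf hV (fun i => bl (Om n a (Ω i)) 1) M hM
  have hsub : {ξ : Fin k → ℂ | (∀ i, Pool.Agent.Y916.Sl.SInt g M (ξ i)) ∧
        ((∃ i, ‖ξ i - τ‖ ≤ L₀) ∨ ExcM n Q a b τ s δ d W V Ω ξ)} ⊆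
      {ξ : Fin k → ℂ | (∀ i, Pool.Agent.Y916.Sl.SInt g M (ξ i)) ∧
        ((∃ i, ‖ξ i - τ‖ ≤ L₀) ∨ ExcV (bl (blk n ℚ fun j => Am (n j)) (0 : Matrix (Fin p) (Fin p) ℚ))
          (bl (blk n ℚ⟦X⟧ fun j => HH (-b j / a j - τ) (1 / a j) (Am (n j)) (Hp (n j) (Q j))) H')
          (TP (fun _ => TG0 n Q) c) δ d V (fun i => bl (Om n a (Ω i)) 1) fun i => ξ i - τ)} := by
    rintro ξ ⟨hξ, hE⟩
    refine ⟨hξ, ?_⟩
    by_cases hs : ∃ i, ‖ξ i - τ‖ ≤ L₀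
    · exact Or.inl hs
    · have hE' := hE.resolve_left hs
      push Not at hs
      exact Or.inr (excM_of hS hD ha hc he hs hE')
  refine ⟨h1.subset hsub, le_trans ?_ h2⟩
  exact_mod_cast Set.ncard_le_ncard hsub h1

end Pool.Agent.Run7.h696.CA
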