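import Pool.Agent.Run7.h696.CF.Iface3
import Pool.Agent.Run7.h225.HG.TUPA

/-!
# The entries of the holomorphic part of a system with a smaller radius of convergence are a family of G-functions
-/

set_option autoImplicit false

open PowerSeries Matrix
open Pool.Agent.Y113 hiding Bm
open Pool.Agent.Y120.GF Pool.Agent.Y120.GH Pool.Agent.Y119.HZ
open Pool.Agent.Y119.HY (cm E Hf Yf)
open Pool.Agent.Run7.h225.HG Pool.Agent.Run7.h696.CF

namespace Pool.Agent.Run7.h696.CA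

theorem gfsL {L : ℝ} {n : ℕ} {N : Matrix (Fin n) (Fin n) ℚ} {H W : Matrix (Fin n) (Fin n) ℚ⟦X⟧} (h : SysL L n N H W) :
    ∃ (T : Polynomial ℤ) (A : Fin (n * n) → Fin (n * n) → Polynomial ℤ), Pool.Agent.Y916.Af.GFs T A (hfg H) := by
  obtain ⟨Nz, hNz⟩ := h.int
  obtain ⟨T₁, A, hT, hode⟩ := h.ode
  obtain ⟨q, C, hG⟩ := gsysL h.nil h.inv hode h.sH h.sW
  have hG' := hG.reindex (ix n)
  have hT' : Polynomial.X * T₁ ≠ 0 := mul_ne_zero Polynomial.X_ne_zero hT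
  obtain ⟨C₁, hC₁, hs, -⟩ := Pool.Agent.Y119.HY.SDc.unif (y := fun p : Fin n × Fin n => H p.1 p.2) fun p => h.sH p.1 p.2
  refine ⟨Polynomial.X * T₁, fun a c => A3 T₁ A Nz (ix n a) (ix n c), hT', fun i => ?_, ⟨C₁, fun j m => hs _ m⟩,
    ⟨q, C, hG'⟩, qu_gen h.nil hNz h.zero hode h.sH⟩
  have h1 := ode_A3 hNz hode (ix n i)
  have h2 : ∑ j : Fin (n * n), ps (A3 T₁ A Nz (ix n i) (ix n j)) * hfg H j =
      ∑ q, ps (A3 T₁ A Nz (ix n i) q) * H q.1 q.2 :=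
    Equiv.sum_comp (ix n) fun q => ps (A3 T₁ A Nz (ix n i) q) * H q.1 q.2
  exact h1.trans h2.symm

theorem nrhL {L : ℝ} {n : ℕ} {N : Matrix (Fin n) (Fin n) ℚ} {H W : Matrix (Fin n) (Fin n) ℚ⟦X⟧} (h : SysL L n N H W) :
    Pool.Agent.Y916.Af.NRh (hfg H) := by
  obtain ⟨T, A, h⟩ := gfsL h
  exact Pool.Agent.Y916.Af.nrh_of_gfs h

theorem szL {L : ℝ} {n : ℕ} {N : Matrix (Fin n) (Fin n) ℚ} {H W : Matrix (Fin n) (Fin n) ℚ⟦X⟧} (h : SysL L n N H W) :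
    Pool.Agent.Y916.Af.SZ (hfg H) := by
  obtain ⟨T, A, h⟩ := gfsL h
  exact h.hsize

end Pool.Agent.Run7.h696.CA
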