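import Pool.Agent.Run7.h696.CA.GFSL

/-!
# Almost all tuples of algebraic fibres of a general system with a smaller radius of convergence

Adapted from `Run7/h225/HP/TUPB.lean`.
-/

set_option autoImplicit false

open PowerSeries Matrix
open Pool.Agent.Y113 hiding Bm
open Pool.Agent.Y120.GF Pool.Agent.Y120.GH Pool.Agent.Y119.HZ
open Pool.Agent.Y119.HY (cm E Hf Yf E_mul_neg)
open Pool.Agent.Run7.h696.CF

namespace Pool.Agent.Run7.h696.CA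

open Pool.Agent.Run7.h225.HG Pool.Agent.Run7.h225.HG.TUPA
open Pool.Agent.Run7.h225.HG.SYS2 (subg' aeval_subg' aeval_MVg')

/-- irreducible sets of matrices at the points of the unit disk, in the variety of the functional relations -/
structure TVL (L : ℝ) {n : ℕ} (H : Matrix (Fin n) (Fin n) ℚ⟦X⟧) (T : ℂ → Set (Matrix (Fin n) (Fin n) ℂ)) : Prop where
  pt : ∀ z : ℂ, ‖z‖ < 1 / L → Hf (Hcg H) z ∈ T z
  irr : ∀ z : ℂ, ‖z‖ < 1 / L → Pool.Agent.Y118.UL.Irr {y : Fin (n * n) → ℂ | ∃ X ∈ T z, y = fun a => X (ix n a).1 (ix n a).2}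
  vc : ∀ z : ℂ, ‖z‖ < 1 / L → ∀ X ∈ T z, (fun a => X (ix n a).1 (ix n a).2) ∈ Pool.Agent.Y916.Af.Vc (hfg H) z

/-- the exceptional tuples -/
def ExcV {n : ℕ} (Ns : Matrix (Fin n) (Fin n) ℚ) (H : Matrix (Fin n) (Fin n) ℚ⟦X⟧)
    (T : ℂ → Set (Matrix (Fin n) (Fin n) ℂ)) (δ d : ℕ) (V : Submodule ℚ ℂ) {k : ℕ}
    (Ω : Fin k → Matrix (Fin n) (Fin n) ℂ) (α : Fin k → ℂ) : Prop :=
  ∃ ℓ : Fin k → ℂ, (∀ i, Complex.exp (ℓ i) = α i) ∧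
    ∃ L : IntermediateField ℚ ℂ, FiniteDimensional ℚ L ∧ Module.finrank ℚ L ≤ d ∧
    ∃ P : MvPolynomial (Jx (fun _ : Fin k => n)) ℂ, P.totalDegree ≤ δ ∧
      (∀ s, P.coeff s ∈ Submodule.span L (V : Set ℂ)) ∧
      MvPolynomial.aeval (pw (n := fun _ : Fin k => n) ℓ fun i => Hf (Hcg H) (1 / α i) * E (cm Ns) (-ℓ i) * Ω i) P = 0 ∧
      ∃ (l : Fin k → ℂ) (g : Fin k → Matrix (Fin n) (Fin n) ℂ), (∀ i, g i ∈ T (1 / α i)) ∧
        MvPolynomial.aeval (pw (n := fun _ : Fin k => n) l fun i => g i * E (cm Ns) (-l i) * Ω i) P ≠ 0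

variable {n k L₀ : ℕ} {N : Matrix (Fin n) (Fin n) ℚ} {H W : Matrix (Fin n) (Fin n) ℚ⟦X⟧}
  {T : ℂ → Set (Matrix (Fin n) (Fin n) ℂ)}

theorem ys_irr' (hT : TVL L₀ H T) {α : Fin k → ℂ} (hα : ∀ i, ‖1 / α i‖ < 1 / L₀) (d : ℕ) :
    Pool.Agent.Y916.Af.IrrD d (Ys k n T α) :=
  Pool.Agent.Y916.Af.prod_irrD _ fun j => Pool.Agent.Y916.Af.opt_irrD _ (Pool.Agent.Y916.Af.irrD_of_irr
    (hT.irr _ (hα j)) d)

/-! ### almost all tuples -/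

theorem exc_of' (Ns : Matrix (Fin n) (Fin n) ℚ) (hT : TVL L₀ H T) (δ₁ : ℕ) {δ d : ℕ} {V : Submodule ℚ ℂ}
    {Ω : Fin k → Matrix (Fin n) (Fin n) ℂ}
    {α : Fin k → ℂ} (hL : 1 ≤ L₀) (h1 : ∀ i, (L₀ : ℝ) < ‖α i‖) (hα : ExcV Ns H T δ d V Ω α) :
    Pool.Agent.Y916.Af.ExcD δ₁ (hfg H) (δ * dg (fun _ : Fin k => n)) d (Vn (n := fun _ : Fin k => n) Ω V δ) α := by
  obtain ⟨ℓ, hℓ, L, hL1, hL2, P, hPd, hPc, hP0, l, g, hg, hPg⟩ := hα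
  have hL0 : (0 : ℝ) < L₀ := by exact_mod_cast hL
  have hz : ∀ i, ‖1 / α i‖ < 1 / L₀ := by
    intro i
    rw [norm_div, norm_one]
    exact one_div_lt_one_div_of_lt hL0 (h1 i)
  set W' : Submodule ℚ ℂ := (Submodule.span L (V : Set ℂ)).restrictScalars ℚ with hW
  have hMV := aeval_MVg' (n := fun _ : Fin k => n) (fun _ => Ns) Ω (V := W') hPd hPc
  have h3 : Pool.Agent.Y916.Af.ptc (hfg H) α ℓ = yp (fun i => Hf (Hcg H) (1 / α i)) ℓ := by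
    funext a
    rcases a with ⟨i, _ | j⟩
    · rfl
    · exact evc_hfg _ _
  refine ⟨ℓ, hℓ, Ys k n T α, ys_irr' hT hz δ₁, ?_, ?_, L, hL1, hL2,
    MvPolynomial.rename cf2 (MvPolynomial.aeval (subg' (n := fun _ : Fin k => n) (fun _ => Ns) Ω) P), ?_, ?_, ?_, ?_⟩
  · rw [h3]
    exact yp_mem (fun i => hT.pt _ (hz i)) ℓ
  · intro y hy j
    obtain ⟨g', hg', h4⟩ := hy j
    have h5 : (fun i => y (j, some i)) = fun i => g' (ix n i).1 (ix n i).2 := h4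
    rw [h5]
    exact hT.vc _ (hz j) g' hg'
  · exact (MvPolynomial.totalDegree_rename_le _ _).trans hMV.2
  · intro s
    have hinj : Function.Injective (cf2 (k := k) (n := n)) := by
      rintro ⟨i, a⟩ ⟨j, b⟩ hab
      simp only [cf2, Prod.mk.injEq] at hab
      obtain ⟨rfl, rfl⟩ := hab
      rfl
    by_cases hs : ∃ s', s = Finsupp.mapDomain cf2 s'
    · obtain ⟨s', rfl⟩ := hs
      rw [MvPolynomial.coeff_rename_mapDomain _ hinj]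
      exact Pool.Agent.Y119.HA.Vn_span L (n := fun _ : Fin k => n) Ω (V := W') (V' := V) (fun v hv => hv) δ _ (hMV.1 s')
    · rw [MvPolynomial.coeff_rename_eq_zero]
      · exact Submodule.zero_mem _
      · intro u hu
        exact absurd ⟨u, hu.symm⟩ hs
  · rw [h3, aeval_yp]
    exact hP0
  · refine ⟨yp g l, yp_mem hg l, ?_⟩
    rw [aeval_yp]
    exact hPg

/-- **almost all tuples of algebraic integers of bounded degree** -/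
theorem tupBL (hL : 1 ≤ L₀) (hS : SysL L₀ n N H W) (Ns : Matrix (Fin n) (Fin n) ℚ) (hT : TVL L₀ H T) (k m δ d D : ℕ)
    (hm : 1 ≤ m) :
    ∃ c : ℝ, 0 < c ∧ ∃ C : ℝ, 0 ≤ C ∧ ∀ V : Submodule ℚ ℂ, Module.Finite ℚ V → Module.finrank ℚ V ≤ D →
      ∀ (Ω : Fin k → Matrix (Fin n) (Fin n) ℂ) (M : ℕ), 1 ≤ M →
      {α : Fin k → ℂ | (∀ i, Pool.Agent.Y916.Sl.SInt m M (α i)) ∧ ExcV Ns H T δ d V Ω α}.Finite ∧
      ({α : Fin k → ℂ | (∀ i, Pool.Agent.Y916.Sl.SInt m M (α i)) ∧ ExcV Ns H T δ d V Ω α}.ncard : ℝ) ≤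
        C * (M : ℝ) ^ (-c) * ({ξ : ℂ | Pool.Agent.Y916.Sl.SInt m M ξ}.ncard : ℝ) ^ k := by
  classical
  obtain ⟨δ₁, c, hc, C, hC, h1⟩ := Pool.Agent.Y916.Af.tupDs (nrhL hS) (szL hS) k m
    (δ * dg (fun _ : Fin k => n)) d ((Fintype.card (Option (Ix (fun _ : Fin k => n)))) ^ δ * D)
  obtain ⟨c₁, hc₁, hmany⟩ := Pool.Agent.Y916.Sl.many m hm
  obtain ⟨C₂, hC₂, h₂⟩ := Pool.Agent.Y916.Af.small_tuples m k L₀ hL
  refine ⟨min c 1, lt_min hc one_pos, (C + C₂) / c₁ ^ k, by positivity, fun V hV hVD Ω M hM => ?_⟩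
  have hT1 : (1 : ℝ) ≤ M := by exact_mod_cast hM
  obtain ⟨hfin, hrank⟩ := Vn_fin (n := fun _ : Fin k => n) Ω V δ
  obtain ⟨h2, h3⟩ := h1 (Vn (n := fun _ : Fin k => n) Ω V δ) hfin (hrank.trans (Nat.mul_le_mul_left _ hVD)) M hM
  have h4 := h₂ M hM
  set B2 := (Fintype.piFinset fun _ : Fin k => Pool.Agent.Y916.Sl.NF m M).filter fun α => ∃ i, ‖α i‖ ≤ L₀ with hB2'
  set X := {α : Fin k → ℂ | (∀ i, Pool.Agent.Y916.Sl.AInt m M (α i)) ∧ Pool.Agent.Y916.Af.ExcD δ₁ (hfg H)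
    (δ * dg (fun _ : Fin k => n)) d (Vn (n := fun _ : Fin k => n) Ω V δ) α} with hX
  have hsub : {α : Fin k → ℂ | (∀ i, Pool.Agent.Y916.Sl.SInt m M (α i)) ∧ ExcV Ns H T δ d V Ω α} ⊆
      X ∪ (B2 : Set (Fin k → ℂ)) := by
    rintro α ⟨hα, hE⟩
    by_cases hs : ∃ i, ‖α i‖ ≤ L₀
    · right
      rw [hB2', Finset.mem_coe, Finset.mem_filter, Fintype.mem_piFinset]
      exact ⟨fun i => Pool.Agent.Y916.Sl.mem_NF.2 (Pool.Agent.Y916.Sl.SInt.aint (hα i)), hs⟩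
    · left
      push Not at hs
      refine ⟨fun i => Pool.Agent.Y916.Sl.SInt.aint (hα i), exc_of' Ns hT δ₁ hL (fun i => hs i) hE⟩
  have hfin2 : (X ∪ (B2 : Set (Fin k → ℂ))).Finite := h2.union (Finset.finite_toSet _)
  refine ⟨hfin2.subset hsub, ?_⟩
  have h5 := (Set.ncard_le_ncard hsub hfin2).trans (Set.ncard_union_le _ _)
  rw [Set.ncard_coe_finset] at h5
  have h6 : (M : ℝ) ^ (((k * Pool.Agent.Y916.Sl.Mm m : ℕ) : ℝ) - c) ≤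
      (M : ℝ) ^ (((k * Pool.Agent.Y916.Sl.Mm m : ℕ) : ℝ) - min c 1) :=
    Real.rpow_le_rpow_of_exponent_le hT1 (by linarith [min_le_left c 1])
  have h7 : (M : ℝ) ^ (((k * Pool.Agent.Y916.Sl.Mm m : ℕ) : ℝ) - 1) ≤
      (M : ℝ) ^ (((k * Pool.Agent.Y916.Sl.Mm m : ℕ) : ℝ) - min c 1) :=
    Real.rpow_le_rpow_of_exponent_le hT1 (by linarith [min_le_right c 1])
  have h8 : ({α : Fin k → ℂ | (∀ i, Pool.Agent.Y916.Sl.SInt m M (α i)) ∧ ExcV Ns H T δ d V Ω α}.ncard : ℝ) ≤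
      (C + C₂) * (M : ℝ) ^ (((k * Pool.Agent.Y916.Sl.Mm m : ℕ) : ℝ) - min c 1) := by
    calc ({α : Fin k → ℂ | (∀ i, Pool.Agent.Y916.Sl.SInt m M (α i)) ∧ ExcV Ns H T δ d V Ω α}.ncard : ℝ) ≤
          (X.ncard : ℝ) + B2.card := by exact_mod_cast h5
      _ ≤ C * (M : ℝ) ^ (((k * Pool.Agent.Y916.Sl.Mm m : ℕ) : ℝ) - min c 1) +
          C₂ * (M : ℝ) ^ (((k * Pool.Agent.Y916.Sl.Mm m : ℕ) : ℝ) - min c 1) :=
          add_le_add (h3.trans (mul_le_mul_of_nonneg_left h6 hC)) (h4.trans (mul_le_mul_of_nonneg_left h7 hC₂))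
      _ = _ := by ring
  exact h8.trans (Pool.Agent.Y916.Sl.prop_bound hc₁ (by positivity) hM (hmany M hM))

end Pool.Agent.Run7.h696.CA
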