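import Pool.Agent.Run7.h696.CP.Iface
import Pool.Agent.Run7.h696.CA.TUPBL

/-!
# Interface of the project CA (helper696): hyperlogarithms and correlated families at algebraic points

The pieces generalise the second part of the project HPL (`Run7/h225/HP/Iface2.lean`, letters `false` = `dz / z` and `true` =
`dz / (1 - z)`) to words in the letters `none` = `dz / z` and `some i` = `dz / (1 - a_i z)`, `i : Fin m`. The functions are the
hyperlogarithms `hy a w` of `Run7/h696/CP/Iface.lean`.
-/

set_option autoImplicit false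

open PowerSeries Matrix
open Pool.Agent.Y113 hiding Bm
open Pool.Agent.Y120.GF Pool.Agent.Y120.GH Pool.Agent.Y119.HZ
open Pool.Agent.Y119.HY (cm E Hf Yf)
open Pool.Agent.Y118.UL (Irr)
open Pool.Agent.Run7.h225.HG Pool.Agent.Run7.h696.CF Pool.Agent.Run7.h696.CP

namespace Pool.Agent.Run7.h696.CA

/-- the words which do not end with `none` -/
def Adm {m : ℕ} (w : List (Option (Fin m))) : Prop := w.getLast? ≠ some none

/-- the shuffle product of two words, the list of its terms -/
def sh {κ : Type} : List κ → List κ → List (List κ)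
  | [], v => [v]
  | a :: u, [] => [a :: u]
  | a :: u, b :: v => (sh u (b :: v)).map (a :: ·) ++ (sh (a :: u) v).map (b :: ·)

lemma sh_nil {κ : Type} (u : List κ) : sh u [] = [u] := by
  cases u <;> rw [sh]

variable {m : ℕ}

lemma Adm_cons {a : Option (Fin m)} {w : List (Option (Fin m))} (h : Adm (a :: w)) : Adm w := by
  unfold Adm at h ⊢
  rcases w with _ | ⟨b, w⟩
  · simp
  · rwa [List.getLast?_cons_cons] at h

lemma Adm_of_ne {a : Option (Fin m)} {w : List (Option (Fin m))} (h : Adm w) (hw : w ≠ []) : Adm (a :: w) := by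
  unfold Adm at h ⊢
  rcases w with _ | ⟨b, w⟩
  · exact absurd rfl hw
  · rwa [List.getLast?_cons_cons]

lemma sh_length {κ : Type} {u v w : List κ} (h : w ∈ sh u v) : w.length = u.length + v.length := by
  induction u generalizing v w with
  | nil =>
    rw [sh, List.mem_singleton] at h
    subst h
    simp
  | cons a u ihu =>
    induction v generalizing w with
    | nil =>
      rw [sh, List.mem_singleton] at h
      subst h
      simp
    | cons b v ihv =>
      rw [sh, List.mem_append, List.mem_map, List.mem_map] at h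
      rcases h with ⟨w', h, rfl⟩ | ⟨w', h, rfl⟩
      · have := ihu h
        simp only [List.length_cons] at this ⊢
        omega
      · have := ihv h
        simp only [List.length_cons] at this ⊢
        omega

lemma sh_adm {u v w : List (Option (Fin m))} (hu : Adm u) (hv : Adm v) (h : w ∈ sh u v) : Adm w := by
  induction u generalizing v w with
  | nil =>
    rw [sh, List.mem_singleton] at h
    subst h
    exact hv
  | cons a u ihu =>
    induction v generalizing w with
    | nil =>
      rw [sh, List.mem_singleton] at h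
      subst h
      exact hu
    | cons b v ihv =>
      rw [sh, List.mem_append, List.mem_map, List.mem_map] at h
      rcases h with ⟨w', h, rfl⟩ | ⟨w', h, rfl⟩
      · refine Adm_of_ne (ihu (Adm_cons hu) hv h) ?_
        rintro rfl
        have := sh_length h
        simp at this
      · refine Adm_of_ne (ihv (Adm_cons hv) h) ?_
        rintro rfl
        have := sh_length h
        simp only [List.length_nil, List.length_cons] at this
        omega

/-- characters of the shuffle algebra (of the words which do not end with `none`) -/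
structure Chr {R : Type} [CommRing R] (x : List (Option (Fin m)) → R) : Prop where
  one : x [] = 1
  mul : ∀ u v, Adm u → Adm v → x u * x v = ((sh u v).map x).sum

/-- the value of a power series with rational coefficients -/
noncomputable def vz (z : ℂ) (f : ℚ⟦X⟧) : ℂ := Pool.Agent.Y916.Al.evc z f

/-- **SHUFH.** The shuffle relations (generalises `Run7/h930/HP/SHUF.lean`).

Proof. Induction on the sum of the lengths. `θ hy (none u) = hy u` for `u ≠ []` admissible and
`(1 - a_i z) θ hy (some i u) = z hy u`. -/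
def S_SHUFH : Prop := ∀ (m : ℕ) (a : Fin m → ℤ), Chr (hy a)

/-- **VALH.** The values of the hyperlogarithms are a character (generalises `Run7/h882/HP/VAL.lean`).

Proof. `|co a w k| ≤ L^k` by induction, so the series converge absolutely for `‖z‖ < 1 / L`. -/
def S_VALH : Prop := S_SHUFH → ∀ (m : ℕ) (a : Fin m → ℤ) (L : ℝ), 1 ≤ L → (∀ i, |(a i : ℝ)| ≤ L) →
  (∀ w k, |((co a w k : ℚ) : ℝ)| ≤ L ^ k) ∧ ∀ z : ℂ, ‖z‖ < 1 / L → Chr fun w => vz z (hy a w)

/-- **LINZH.** Polynomials in the values of characters are linear combinations (`Run7/h930/HP/LINZ.lean` with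
`List (Option (Fin m))` instead of `List Bool`). -/
def S_LINZH : Prop := ∀ (m : ℕ) (τ A : Type) [CommRing A] (W : ℕ) (R : MvPolynomial (τ ⊕ Wd m W) A),
  ∃ q : List (Option (Fin m)) →₀ MvPolynomial τ A, (∀ w ∈ q.support, Adm w) ∧
    ∀ (B : Type) [CommRing B] (f : A →+* B) (y : τ → B) (x : List (Option (Fin m)) → B), Chr x →
      MvPolynomial.eval₂ f (Sum.elim y fun w => x w.1) R = q.sum fun w p => MvPolynomial.eval₂ f y p * x w

/-- **PLWH.** All entries of the system of the hyperlogarithms are linear combinations of the `hy a w`.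

Proof. The system is the one of `Run7/h160/CP/HLS.lean` (`p_HLS`), its entries are `0` or `h_w` (`w` any word of length `≤ W`);
generalises `Run7/h586/HP/PLW.lean`. By induction on the length `h_w` is a linear combination of the `hy a w'` with `w'`
admissible of the same length: `h_w = In(R_w)`, and `In(hy a w') = hy a (none w')` if `w' ≠ []` is admissible,
`In(X * geo a_i * hy a w') = hy a (some i w')`. -/
def S_PLWH : Prop := ∀ (m : ℕ) (a : Fin m → ℤ) (L : ℝ), 1 ≤ L → (∀ i, |(a i : ℝ)| ≤ L) → ∀ W : ℕ,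
  ∃ (d : ℕ) (N : Matrix (Fin d) (Fin d) ℚ) (H V : Matrix (Fin d) (Fin d) ℚ⟦X⟧)
    (c : Fin d → Fin d → Wd m W → ℚ) (e : Wd m W → Fin d × Fin d), SysL L d N H V ∧
    (∀ i j, H i j = ∑ w, PowerSeries.C (c i j w) * hy a w.1) ∧ ∀ w, c (e w).1 (e w).2 = Pi.single w 1

/-- **LINH.** The hyperlogarithms are linearly independent over the ring of polynomials in `z` and the functions `h`.

Proof. From `S_INDH`: let `W` be the maximal length of the `w ∈ q.support`, choose a maximal subset `σ` of `q.support` such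
that the `aeval h (q w)`, `w ∈ σ`, are linearly independent over `ℚ[z]`; there is a polynomial `D ≠ 0` such that all
`D * aeval h (q w)` are combinations of these with coefficients in `ℚ[z]`, and by INDH all the coefficients vanish. (Or as in
`Run7/h930/HP/LIN.lean` with `graded_indep`, see the proof of INDH.) -/
def S_LINH : Prop := S_INDH → ∀ (m : ℕ) (a : Fin m → ℤ) (N : ℕ) (h : Fin N → ℚ⟦X⟧) (T : Polynomial ℚ)
  (A : Fin N → Fin N → Polynomial ℚ), T ≠ 0 →
  (∀ i, (T : ℚ⟦X⟧) * d⁄dX ℚ (h i) = ∑ j, (A i j : ℚ⟦X⟧) * h j) → NoLogs a h →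
  ∀ q : List (Option (Fin m)) →₀ MvPolynomial (Fin N) (Polynomial ℚ), (∀ w ∈ q.support, Adm w) →
  (q.sum fun w p => MvPolynomial.aeval h p * hy a w) = 0 → ∀ w, MvPolynomial.aeval h (q w) = 0

/-- **JVVH.** The joint relations vanish on the product of the torsors (`Run7/h882/HP/JVV.lean`).

Proof. LINZH for `A = ℚ[z]`: with `B = ℚ⟦X⟧`, `x = hy a` (SHUFH) the relation is `∑_w aeval h (q w) * hy a w = 0`, so
`aeval h (q w) = 0` by LINH, so `q w` vanishes on `T₀` at `z`; LINZH with `B = ℂ` and the character `x`. -/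
def S_JVVH : Prop := S_SHUFH → S_LINZH → S_INDH → S_LINH → ∀ (m : ℕ) (a : Fin m → ℤ) (N : ℕ) (h : Fin N → ℚ⟦X⟧)
  (T : Polynomial ℚ) (A : Fin N → Fin N → Polynomial ℚ), T ≠ 0 →
  (∀ i, (T : ℚ⟦X⟧) * d⁄dX ℚ (h i) = ∑ j, (A i j : ℚ⟦X⟧) * h j) → NoLogs a h →
  ∀ (W : ℕ) (z : ℂ) (T₀ : Set (Fin N → ℂ)), (∀ y ∈ T₀, ∀ R : MvPolynomial (Fin N) (Polynomial ℚ),
    MvPolynomial.aeval h R = 0 → MvPolynomial.eval₂ (evq z) y R = 0) →
  ∀ y ∈ T₀, ∀ x : List (Option (Fin m)) → ℂ, Chr x → ∀ R : MvPolynomial (Fin N ⊕ Wd m W) (Polynomial ℚ),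
    MvPolynomial.aeval (Sum.elim h fun w => hy a w.1) R = 0 →
    MvPolynomial.eval₂ (evq z) (Sum.elim y fun w => x w.1) R = 0

/-- **JVIH.** The product of an irreducible set and of the set of the characters is irreducible (`Run7/h882/HP/JVI.lean`).

Proof. The `hy a w`, `w` admissible, are linearly independent over `ℂ` (LINH for `N = 0` gives this over `ℚ`; expand complex
coefficients in a basis over `ℚ`). Let `P` and `Q` not vanish at `(y₁, x₁)`, `(y₂, x₂)`. LINZH for `A = ℂ`:
`P = ∑_w P_w(y) x_w`, `Q = ∑_w Q_w(y) x_w`, so `P_u(y₁) ≠ 0`, `Q_v(y₂) ≠ 0` for some `u, v`. As `T₀` is irreducible there is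
`y ∈ T₀` with `P_u(y) Q_v(y) ≠ 0`. The power series `∑_w P_w(y) hy a w` and `∑_w Q_w(y) hy a w` are not `0`, so for a small `z`
(isolated zeros) both have values `≠ 0`, these are the values of `P`, `Q` at `(y, (vz z (hy a w))_w)`. -/
def S_JVIH : Prop := S_SHUFH → S_VALH → S_LINZH → S_INDH → S_LINH → ∀ (m : ℕ) (a : Fin m → ℤ) (L : ℝ), 1 ≤ L →
  (∀ i, |(a i : ℝ)| ≤ L) → (∀ h : Fin 0 → ℚ⟦X⟧, NoLogs a h) → ∀ (τ : Type) (W : ℕ) (T₀ : Set (τ → ℂ)), Irr T₀ →
  Irr {p : τ ⊕ Wd m W → ℂ | (fun i => p (Sum.inl i)) ∈ T₀ ∧ ∃ x : List (Option (Fin m)) → ℂ, Chr x ∧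
    ∀ w : Wd m W, p (Sum.inr w) = x w.1}

end Pool.Agent.Run7.h696.CA
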