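import Pool.Agent.Run7.h696.CA.Iface
import Pool.Agent.Run7.h225.HP.TWO
import Pool.Agent.Run7.h468.CF.BLKL

/-!
# The torsor of a system and of the hyperlogarithms

Adapted from `Run7/h225/HP/PUSH.lean`.
-/

set_option autoImplicit false

open PowerSeries Matrix
open Pool.Agent.Y113 hiding Bm
open Pool.Agent.Y120.GF Pool.Agent.Y120.GH Pool.Agent.Y119.HZ
open Pool.Agent.Y119.HY (cm E Hf Yf E_mul_neg)
open Pool.Agent.Y118.UL (Irr)
open Pool.Agent.Run7.h225.HG Pool.Agent.Run7.h696.CF Pool.Agent.Run7.h696.CP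
open Pool.Agent.Run7.h225.HP (n2 bl i0 i1 bl_cases bl_00 bl_11 bl_mul Hf_bl E_bl)

namespace Pool.Agent.Run7.h696.CA

/-- the pieces -/
structure PP : Prop where
  shuf : S_SHUFH
  linz : S_LINZH
  ind : S_INDH
  lin : S_LINH
  val : S_VALH
  plw : S_PLWH
  jvv : S_JVVH
  jvi : S_JVIH

variable {n p m W : ℕ} {a : Fin m → ℤ} {L : ℝ}

/-- the matrix of a character -/
noncomputable def Mx {R : Type} [CommRing R] [Algebra ℚ R] (c : Fin p → Fin p → Wd m W → ℚ)
    (x : List (Option (Fin m)) → R) : Matrix (Fin p) (Fin p) R :=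
  Matrix.of fun a b => ∑ w, algebraMap ℚ R (c a b w) * x w.1

/-- the torsor of the direct sum -/
def TP (T : ℂ → Set (Matrix (Fin n) (Fin n) ℂ)) (c : Fin p → Fin p → Wd m W → ℚ) (z : ℂ) :
    Set (Matrix (Fin (∑ j, n2 n p j)) (Fin (∑ j, n2 n p j)) ℂ) :=
  {Z | ∃ X ∈ T z, ∃ x : List (Option (Fin m)) → ℂ, Chr x ∧ Z = bl X (Mx c x)}

/-- the coordinates are polynomials -/
lemma exists_La (c : Fin p → Fin p → Wd m W → ℚ) (b : Fin ((∑ j, n2 n p j) * (∑ j, n2 n p j))) :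
    ∃ La : MvPolynomial (Fin (n * n) ⊕ Wd m W) ℚ, ∀ (R : Type) [CommRing R] [Algebra ℚ R] (X : Matrix (Fin n) (Fin n) R)
      (x : List (Option (Fin m)) → R), bl X (Mx c x) (ix (∑ j, n2 n p j) b).1 (ix (∑ j, n2 n p j) b).2 =
        MvPolynomial.aeval (Sum.elim (fun i => X (ix n i).1 (ix n i).2) fun w => x w.1) La := by
  rcases bl_cases (ix (∑ j, n2 n p j) b).1 (ix (∑ j, n2 n p j) b).2 with h | ⟨i, k, h⟩ | ⟨i, k, h⟩
  · refine ⟨0, fun R _ _ X x => ?_⟩
    rw [h, map_zero]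
  · refine ⟨MvPolynomial.X (Sum.inl ((ix n).symm (i, k))), fun R _ _ X x => ?_⟩
    rw [h, MvPolynomial.aeval_X]
    show _ = X (ix n ((ix n).symm (i, k))).1 (ix n ((ix n).symm (i, k))).2
    rw [Equiv.apply_symm_apply]
  · refine ⟨∑ w, MvPolynomial.C (c i k w) * MvPolynomial.X (Sum.inr w), fun R _ _ X x => ?_⟩
    rw [h, map_sum]
    show ∑ w, algebraMap ℚ R (c i k w) * x w.1 = _
    refine Finset.sum_congr rfl fun w _ => ?_
    rw [map_mul, MvPolynomial.aeval_C, MvPolynomial.aeval_X]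
    rfl

/-- the values of linear combinations -/
lemma evc_comb (hL : 1 ≤ L) (hb : ∀ w k, |((co a w k : ℚ) : ℝ)| ≤ L ^ k) {z : ℂ} (hz : ‖z‖ < 1 / L) (c : Wd m W → ℚ) :
    Pool.Agent.Y916.Al.evc z (∑ w, PowerSeries.C (c w) * hy a w.1) = ∑ w, (c w : ℂ) * vz z (hy a w.1) := by
  have hL0 : 0 < L := by linarith
  have hz1 : L * ‖z‖ < 1 := by
    rw [lt_div_iff₀ hL0] at hz
    linarith
  have hsum : ∀ w : Wd m W, Summable fun k : ℕ => (co a w.1 k : ℂ) * z ^ k := by
    intro w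
    refine Summable.of_norm_bounded (g := fun k => (L * ‖z‖) ^ k)
      (summable_geometric_of_lt_one (by positivity) hz1) fun k => ?_
    rw [norm_mul, norm_pow, mul_pow]
    have h1 : (co a w.1 k : ℂ) = (((co a w.1 k : ℚ) : ℝ) : ℂ) := by push_cast; rfl
    rw [h1, Complex.norm_real, Real.norm_eq_abs]
    exact mul_le_mul_of_nonneg_right (hb w.1 k) (by positivity)
  unfold vz Pool.Agent.Y916.Al.evc
  have h1 : ∀ w : Wd m W, (c w : ℂ) * ∑' k : ℕ, ((coeff k (hy a w.1) : ℚ) : ℂ) * z ^ k =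
      ∑' k : ℕ, (c w : ℂ) * (((coeff k (hy a w.1) : ℚ) : ℂ) * z ^ k) := fun w => tsum_mul_left.symm
  simp only [h1]
  rw [← Summable.tsum_finsetSum fun w _ => ?_]
  · refine tsum_congr fun k => ?_
    rw [map_sum, Rat.cast_sum, Finset.sum_mul]
    refine Finset.sum_congr rfl fun w _ => ?_
    rw [coeff_C_mul]
    push_cast
    ring
  · refine Summable.mul_left _ ?_
    simp only [hy, coeff_mk]
    exact hsum w

lemma Hf_Mx (hL : 1 ≤ L) (hb : ∀ w k, |((co a w k : ℚ) : ℝ)| ≤ L ^ k) {H' : Matrix (Fin p) (Fin p) ℚ⟦X⟧}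
    {c : Fin p → Fin p → Wd m W → ℚ}
    (hc : ∀ i j, H' i j = ∑ w, PowerSeries.C (c i j w) * hy a w.1) {z : ℂ} (hz : ‖z‖ < 1 / L) :
    Hf (Hcg H') z = Mx c fun w => vz z (hy a w) := by
  ext i j
  have h1 : Hf (Hcg H') z i j = Pool.Agent.Y916.Al.evc z (H' i j) := by
    unfold Hf
    rw [Matrix.of_apply]
    unfold Pool.Agent.Y119.HY.ps Pool.Agent.Y916.Al.evc
    exact tsum_congr fun k => rfl
  rw [h1, hc, evc_comb hL hb hz]
  rfl

variable {N : Matrix (Fin n) (Fin n) ℚ} {H V' : Matrix (Fin n) (Fin n) ℚ⟦X⟧} {H' : Matrix (Fin p) (Fin p) ℚ⟦X⟧}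
  {T : ℂ → Set (Matrix (Fin n) (Fin n) ℂ)} {c : Fin p → Fin p → Wd m W → ℚ}

lemma hfg_bl (hc : ∀ i j, H' i j = ∑ w, PowerSeries.C (c i j w) * hy a w.1) : bl H H' = bl H (Mx c (hy a)) := by
  congr 1
  ext1 i j
  rw [hc]
  rfl

/-- **the torsor** -/
theorem tv_bl (hP : PP) (hL : 1 ≤ L) (haL : ∀ i, |(a i : ℝ)| ≤ L) (hnl0 : ∀ h : Fin 0 → ℚ⟦X⟧, NoLogs a h)
    (hS : SysL L n N H V') (hNL : NoLogs a (hfg H)) (hT : TVL L H T)
    (hc : ∀ i j, H' i j = ∑ w, PowerSeries.C (c i j w) * hy a w.1) : TVL L (bl H H') (TP T c) := by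
  have hLa := fun b => exists_La (n := n) (p := p) (m := m) (W := W) c b
  choose La hLa using hLa
  obtain ⟨hb, hval⟩ := hP.val hP.shuf m a L hL haL
  refine ⟨fun z hz => ?_, fun z hz => ?_, fun z hz => ?_⟩
  · rw [Hf_bl, Hf_Mx hL hb hc hz]
    exact ⟨_, hT.pt z hz, _, hval z hz, rfl⟩
  · have h1 := hP.jvi hP.shuf hP.val hP.linz hP.ind hP.lin m a L hL haL hnl0 (Fin (n * n)) W _ (hT.irr z hz)
    intro P Q hPQ
    have h2 : ∀ (P : MvPolynomial (Fin ((∑ j, n2 n p j) * (∑ j, n2 n p j))) ℂ) (X : Matrix (Fin n) (Fin n) ℂ)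
        (x : List (Option (Fin m)) → ℂ), MvPolynomial.eval (Sum.elim (fun i => X (ix n i).1 (ix n i).2)
          fun w : Wd m W => x w.1)
          (MvPolynomial.bind₁ (fun a => MvPolynomial.map (algebraMap ℚ ℂ) (La a)) P) =
        MvPolynomial.eval (fun a => bl X (Mx c x) (ix _ a).1 (ix _ a).2) P := by
      intro P X x
      have h3 : MvPolynomial.eval (Sum.elim (fun i => X (ix n i).1 (ix n i).2) fun w : Wd m W => x w.1)
          (MvPolynomial.bind₁ (fun a => MvPolynomial.map (algebraMap ℚ ℂ) (La a)) P) =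
          MvPolynomial.eval (fun a => MvPolynomial.eval (Sum.elim (fun i => X (ix n i).1 (ix n i).2)
            fun w : Wd m W => x w.1) (MvPolynomial.map (algebraMap ℚ ℂ) (La a))) P := by
        rw [← MvPolynomial.coe_aeval_eq_eval]
        show MvPolynomial.aeval _ (MvPolynomial.bind₁ _ P) = _
        rw [MvPolynomial.aeval_bind₁]
        rfl
      rw [h3]
      congr 2
      funext a
      rw [hLa, MvPolynomial.eval_map, MvPolynomial.aeval_def]
    have h4 := h1 (MvPolynomial.bind₁ (fun a => MvPolynomial.map (algebraMap ℚ ℂ) (La a)) P)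
      (MvPolynomial.bind₁ (fun a => MvPolynomial.map (algebraMap ℚ ℂ) (La a)) Q) ?_
    · refine h4.imp (fun h5 => ?_) (fun h5 => ?_)
      · rintro y ⟨Z, ⟨X, hX, x, hx, rfl⟩, rfl⟩
        have h6 := h5 (Sum.elim (fun i => X (ix n i).1 (ix n i).2) fun w : Wd m W => x w.1) ⟨⟨X, hX, rfl⟩, x, hx, fun w => rfl⟩
        rwa [h2] at h6
      · rintro y ⟨Z, ⟨X, hX, x, hx, rfl⟩, rfl⟩
        have h6 := h5 (Sum.elim (fun i => X (ix n i).1 (ix n i).2) fun w : Wd m W => x w.1) ⟨⟨X, hX, rfl⟩, x, hx, fun w => rfl⟩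
        rwa [h2] at h6
    · rintro q ⟨⟨X, hX, hpX⟩, x, hx, hpx⟩
      have h5 : q = Sum.elim (fun i => X (ix n i).1 (ix n i).2) fun w : Wd m W => x w.1 := by
        funext o
        rcases o with i | w
        · exact congrFun hpX i
        · exact hpx w
      rw [h5, h2, h2]
      exact hPQ _ ⟨_, ⟨X, hX, x, hx, rfl⟩, rfl⟩
  · rintro Z ⟨X, hX, x, hx, rfl⟩
    intro R hR
    obtain ⟨TT, AA, hG⟩ := gfsL hS
    have hT0 : TT.map (Int.castRingHom ℚ) ≠ 0 := (Polynomial.map_ne_zero_iff (RingHom.injective_int _)).2 hG.hT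
    have h1 := hP.jvv hP.shuf hP.linz hP.ind hP.lin m a (n * n) (hfg H) (TT.map (Int.castRingHom ℚ))
      (fun i j => (AA i j).map (Int.castRingHom ℚ)) hT0 (fun i => hG.hode i) hNL W z
      {y | ∃ X ∈ T z, y = fun a => X (ix n a).1 (ix n a).2} (by
        rintro y ⟨X, hX, rfl⟩
        exact hT.vc z hz X hX) (fun a => X (ix n a).1 (ix n a).2) ⟨X, hX, rfl⟩ x hx
      (MvPolynomial.bind₁ (fun a => MvPolynomial.map (algebraMap ℚ (Polynomial ℚ)) (La a)) R) ?_
    · have h2 : MvPolynomial.eval₂ (evq z) (Sum.elim (fun i => X (ix n i).1 (ix n i).2) fun w : Wd m W => x w.1)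
          (MvPolynomial.bind₁ (fun a => MvPolynomial.map (algebraMap ℚ (Polynomial ℚ)) (La a)) R) =
          MvPolynomial.eval₂ (evq z) (fun a => MvPolynomial.eval₂ (evq z) (Sum.elim (fun i => X (ix n i).1 (ix n i).2)
            fun w : Wd m W => x w.1) (MvPolynomial.map (algebraMap ℚ (Polynomial ℚ)) (La a))) R :=
        MvPolynomial.eval₂Hom_bind₁ _ _ _ _
      rw [h2] at h1
      have h3 : (fun a => MvPolynomial.eval₂ (evq z) (Sum.elim (fun i => X (ix n i).1 (ix n i).2)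
            fun w : Wd m W => x w.1) (MvPolynomial.map (algebraMap ℚ (Polynomial ℚ)) (La a))) =
          fun a => bl X (Mx c x) (ix _ a).1 (ix _ a).2 := by
        funext a
        rw [hLa, MvPolynomial.eval₂_map, MvPolynomial.aeval_def]
        congr 1
        ext q
        simp
      rw [h3] at h1
      exact h1
    · have h2 : MvPolynomial.aeval (Sum.elim (hfg H) fun w : Wd m W => hy a w.1)
          (MvPolynomial.bind₁ (fun a => MvPolynomial.map (algebraMap ℚ (Polynomial ℚ)) (La a)) R) =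
          MvPolynomial.aeval (fun b => MvPolynomial.aeval (Sum.elim (hfg H) fun w : Wd m W => hy a w.1)
            (MvPolynomial.map (algebraMap ℚ (Polynomial ℚ)) (La b))) R := MvPolynomial.aeval_bind₁ _ _ _
      rw [h2]
      have h3 : (fun b => MvPolynomial.aeval (Sum.elim (hfg H) fun w : Wd m W => hy a w.1)
            (MvPolynomial.map (algebraMap ℚ (Polynomial ℚ)) (La b))) = hfg (bl H H') := by
        funext b
        rw [hfg_bl hc]
        show _ = bl H (Mx c (hy a)) (ix _ b).1 (ix _ b).2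
        rw [hLa, MvPolynomial.aeval_map_algebraMap]
        rfl
      rw [h3]
      exact hR

end Pool.Agent.Run7.h696.CA
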