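import Pool.Agent.Run7.h696.CA.FinA
import Pool.Agent.Y123.GN.E8
import Pool.Agent.Y123.GN.B4

/-!
# Subtorsors for hypergeometric families at correlated algebraic fibres

Adapted from `Run7/h309/ST/Core.lean` (helper309).
-/

set_option autoImplicit false
set_option linter.unusedSectionVars false

open Matrix Module
open Pool.Agent.Y119.HY (Am Jm Bm cm E Hf Hc QD Jc_skew Jc_det)
open Run7.h893.HO
open Pool.Agent.Y119.HZ Pool.Agent.Run7.h225.HG Pool.Agent.Run7.h696.CF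
open Pool.Agent.Y123.GN Pool.Agent.TH127.PT

namespace Pool.Agent.Run7.h696.CA.SUB

section form

open Classical in
/-- the form of one family -/
noncomputable def fm (m : ℕ) (P : Polynomial ℚ) : Matrix (Fin m) (Fin m) ℂ :=
  if QD m P then cm (Jm m P) else 0

variable {m : ℕ} {P : Polynomial ℚ}

lemma fm_D (h : QD m P) : fm m P = cm (Jm m P) := by
  unfold fm
  rw [if_pos h]

lemma fm_Clf {Ω : Matrix (Fin m) (Fin m) ℂ} (hΩ : IsUnit Ω) : Clf (Ωᵀ * fm m P * Ω) := by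
  have hΩd : IsUnit Ω.det := (Matrix.isUnit_iff_isUnit_det _).1 hΩ
  by_cases h1 : QD m P
  · refine Or.inr (Or.inl ⟨?_, ?_⟩)
    · rw [Matrix.isUnit_iff_isUnit_det, det_mul, det_mul, det_transpose, fm_D h1]
      exact (hΩd.mul (isUnit_iff_ne_zero.2 (Jc_det h1))).mul hΩd
    · rw [fm_D h1, transpose_mul, transpose_mul, transpose_transpose, Jc_skew h1, Matrix.neg_mul, Matrix.mul_neg,
        Matrix.mul_assoc]
  · left
    unfold fm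
    rw [if_neg h1, Matrix.mul_zero, Matrix.zero_mul]

/-- the group acts on the periods through the torsor -/
lemma Gp_act {X Ω : Matrix (Fin m) (Fin m) ℂ} (hX : X ∈ Gp m P) (hΩ : IsUnit Ω)
    {g : (Matrix (Fin m) (Fin m) ℂ)ˣ} (hg : g ∈ GB (Ωᵀ * fm m P * Ω)) :
    ∃ X' ∈ Gp m P, (X' * Ω)ᵀ = (g : Matrix (Fin m) (Fin m) ℂ) * (X * Ω)ᵀ := by
  have hΩd : IsUnit Ω.det := (Matrix.isUnit_iff_isUnit_det _).1 hΩ
  have h1 : Ω⁻¹ * Ω = 1 := Matrix.nonsing_inv_mul _ hΩd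
  have h2 : Ω * Ω⁻¹ = 1 := Matrix.mul_nonsing_inv _ hΩd
  obtain ⟨hg1, hg2⟩ := hg
  set G : Matrix (Fin m) (Fin m) ℂ := (g : Matrix (Fin m) (Fin m) ℂ) with hG
  set h : Matrix (Fin m) (Fin m) ℂ := Ω * Gᵀ * Ω⁻¹ with hh
  have hdet : h.det = 1 := by
    rw [hh, det_mul, det_mul, det_transpose, hg1, mul_one, ← det_mul, h2, det_one]
  have hF : hᵀ * fm m P * h = fm m P := by
    have h3 : Ω⁻¹ᵀ * Ωᵀ = 1 := by rw [← transpose_mul, h2, transpose_one]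
    calc hᵀ * fm m P * h = Ω⁻¹ᵀ * (G * (Ωᵀ * fm m P * Ω) * Gᵀ) * Ω⁻¹ := by
          rw [hh, transpose_mul, transpose_mul, transpose_transpose]
          simp only [Matrix.mul_assoc]
      _ = Ω⁻¹ᵀ * (Ωᵀ * fm m P * Ω) * Ω⁻¹ := by rw [hg2]
      _ = (Ω⁻¹ᵀ * Ωᵀ) * fm m P * (Ω * Ω⁻¹) := by simp only [Matrix.mul_assoc]
      _ = fm m P := by rw [h3, h2, Matrix.one_mul, Matrix.mul_one]
  refine ⟨X * h, ⟨?_, fun hQ => ?_⟩, ?_⟩
  · rw [det_mul, hdet, mul_one, hX.1]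
  · rw [fm_D hQ] at hF
    calc (X * h)ᵀ * cm (Jm m P) * (X * h) = hᵀ * (Xᵀ * cm (Jm m P) * X) * h := by
          rw [transpose_mul]
          simp only [Matrix.mul_assoc]
      _ = _ := by rw [hX.2 hQ, hF]
  · have h4 : X * h * Ω = X * Ω * Gᵀ := by
      rw [hh]
      calc X * (Ω * Gᵀ * Ω⁻¹) * Ω = X * Ω * Gᵀ * (Ω⁻¹ * Ω) := by simp only [Matrix.mul_assoc]
        _ = _ := by rw [h1, Matrix.mul_one]
    rw [h4, transpose_mul (X * Ω) Gᵀ, transpose_transpose]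

end form

section index

variable {r k : ℕ}

lemma dm_surj (p : Fin k × Fin r) : ∃ q : Fin (k * r), (q.divNat, q.modNat) = p :=
  ⟨finProdFinEquiv p, finProdFinEquiv.symm_apply_apply p⟩

lemma dm_inj {q q' : Fin (k * r)} (h : (q.divNat, q.modNat) = (q'.divNat, q'.modNat)) : q = q' :=
  finProdFinEquiv.symm.injective h

/-- families indexed by `q` are families indexed by pairs -/
lemma exists_pairs {A : Fin k × Fin r → Type} (x : ∀ q : Fin (k * r), A (q.divNat, q.modNat)) :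
    ∃ y : ∀ p, A p, ∀ q, y (q.divNat, q.modNat) = x q := by
  have h : ∀ p : Fin k × Fin r, ∃ y : A p, ∀ q (hq : (q.divNat, q.modNat) = p), y = hq ▸ x q := by
    intro p
    obtain ⟨q0, rfl⟩ := dm_surj p
    refine ⟨x q0, fun q hq => ?_⟩
    have h1 := dm_inj hq
    subst h1
    rfl
  choose y hy using h
  exact ⟨y, fun q => hy _ q rfl⟩

end index

section main

variable {r k : ℕ} {n : Fin r → ℕ} {Q : Fin r → Polynomial ℚ} {a b : Fin r → ℚ} {τ : ℤ}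
  {V' : ∀ j, Matrix (Fin (n j)) (Fin (n j)) (PowerSeries ℚ)} {L₀ : ℕ}

/-- the sizes of the blocks -/
abbrev nb (n : Fin r → ℕ) (k : ℕ) : Fin (k * r) → ℕ := fun q => n q.modNat

/-- the period matrices -/
noncomputable def Pm (Q : Fin r → Polynomial ℚ) (a b : Fin r → ℚ) (τ : ℤ)
    (Ω : Fin k → ∀ j, Matrix (Fin (n j)) (Fin (n j)) ℂ) (ξ ℓ : Fin k → ℂ)
    (q : Fin (k * r)) : Matrix (Fin (nb n k q)) (Fin (nb n k q)) ℂ :=
  (Hf (Hc (n q.modNat) (Q q.modNat)) (1 / ((a q.modNat : ℂ) * ξ q.divNat + b q.modNat)) *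
    E (cm (Am (n q.modNat))) (-lgl (a q.modNat) (b q.modNat) τ (ξ q.divNat) (ℓ q.divNat)) *
    Ω q.divNat q.modNat)ᵀ

/-- the Betti forms -/
noncomputable def bf (Q : Fin r → Polynomial ℚ) (Ω : Fin k → ∀ j, Matrix (Fin (n j)) (Fin (n j)) ℂ)
    (q : Fin (k * r)) : Matrix (Fin (nb n k q)) (Fin (nb n k q)) ℂ :=
  (Ω q.divNat q.modNat)ᵀ * fm (n q.modNat) (Q q.modNat) * Ω q.divNat q.modNat

/-- the conclusion -/
def GoodS {B₀ : Type} [Fintype B₀] [DecidableEq B₀] (D : ℕ) (C₀ : Matrix B₀ B₀ ℂ) (Q : Fin r → Polynomial ℚ)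
    (a b : Fin r → ℚ) (τ : ℤ) (Ω : Fin k → ∀ j, Matrix (Fin (n j)) (Fin (n j)) ℂ) (ξ : Fin k → ℂ) : Prop :=
  ∀ ℓ : Fin k → ℂ, (∀ i, Complex.exp (ℓ i) = ξ i - τ) →
  ∀ K : Subfield ℂ, FiniteDimensional ℚ K → finrank ℚ K ≤ D →
  ∀ T : Set (Matrix (IG B₀ (nb n k)) (IG B₀ (nb n k)) ℂ), IsSubtorsor K T → EG C₀ (Pm Q a b τ Ω ξ ℓ) ∈ T →
    (∀ q, IsUnit (Ω (q : Fin (k * r)).divNat q.modNat)) ∧
    ∀ g : ∀ q, (Matrix (Fin (nb n k q)) (Fin (nb n k q)) ℂ)ˣ, (∀ q, g q ∈ GB (bf Q Ω q)) →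
      ∀ x ∈ T, EG 1 (fun q => (g q : Matrix (Fin (nb n k q)) (Fin (nb n k q)) ℂ)) * x ∈ T

/-- the coordinates -/
def tau (n : Fin r → ℕ) (k : ℕ) : (Σ q : Fin (k * r), Fin (nb n k q) × Fin (nb n k q)) → Cj n k :=
  fun v => ⟨v.1.divNat, some ⟨v.1.modNat, (v.2.2, v.2.1)⟩⟩

lemma coeff_rn {σ τ : Type} (f : σ → τ) (V : Submodule ℚ ℂ) (F : MvPolynomial σ ℂ) (h : ∀ s, F.coeff s ∈ V) (t : τ →₀ ℕ) :
    (MvPolynomial.rename f F).coeff t ∈ V := by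
  classical
  rw [F.as_sum, map_sum, MvPolynomial.coeff_sum]
  refine V.sum_mem fun s _ => ?_
  rw [MvPolynomial.rename_monomial, MvPolynomial.coeff_monomial]
  split_ifs
  · exact h s
  · exact V.zero_mem

/-- **the counting theorem** -/
theorem sub_ca (hL : 1 ≤ L₀) (hS : ∀ j, Sys (n j) (Am (n j)) (Bm (n j) (Q j)) (Hp (n j) (Q j)) (V' j))
    (hD : DatL n Q (fun j => ((-b j / a j - τ : ℚ) : ℝ)) (fun j => ((1 / a j : ℚ) : ℝ)) L₀) (ha : ∀ j, a j ≠ 0)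
    (r₀ k m D : ℕ) (hm : 1 ≤ m) : ∃ c : ℝ, 0 < c ∧ ∃ C : ℝ, 0 ≤ C ∧
    ∀ (C₀ : Matrix (Fin r₀) (Fin r₀) ℂ) (Ω : Fin k → ∀ j, Matrix (Fin (n j)) (Fin (n j)) ℂ) (M : ℕ), 1 ≤ M →
      {ξ : Fin k → ℂ | (∀ i, Pool.Agent.Y916.Sl.SInt m M (ξ i)) ∧
        ((∃ i, ‖ξ i - τ‖ ≤ L₀) ∨ ¬ GoodS D C₀ Q a b τ Ω ξ)}.Finite ∧
      ({ξ : Fin k → ℂ | (∀ i, Pool.Agent.Y916.Sl.SInt m M (ξ i)) ∧
        ((∃ i, ‖ξ i - τ‖ ≤ L₀) ∨ ¬ GoodS D C₀ Q a b τ Ω ξ)}.ncard : ℝ) ≤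
        C * (M : ℝ) ^ (-c) * ({ξ : ℂ | Pool.Agent.Y916.Sl.SInt m M ξ}.ncard : ℝ) ^ k := by
  classical
  obtain ⟨d, hd1, hd⟩ := comm_all (r₀ + ∑ q, nb n k q) D
  obtain ⟨c, hc, C, hC, h⟩ := tup_ca hL hS hD ha k m d 1 ((1 + r₀ * r₀ + 1) ^ (d + 1)) hm
  refine ⟨c, hc, C, hC, fun C₀ Ω M hM => ?_⟩
  obtain ⟨hbf, hb1⟩ := bot_fin
  obtain ⟨V, hV1, hV2, hKV, hV3⟩ := exists_W' (⊥ : Subfield ℂ) (fun b : Fin r₀ × Fin r₀ => C₀ b.1 b.2)
  obtain ⟨hp1, hp2⟩ := Pool.Agent.Y113.finrank_pow_le V (d + 1)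
  have hVD : Module.finrank ℚ V ≤ 1 + r₀ * r₀ + 1 := by
    refine hV2.trans ?_
    rw [Fintype.card_prod, Fintype.card_fin]
    omega
  have h1V : (1 : ℂ) ∈ V := hKV 1 (⊥ : Subfield ℂ).one_mem
  obtain ⟨h1, h2⟩ := h (V ^ (d + 1)) hp1 (hp2.trans (Nat.pow_le_pow_left hVD _)) Ω M hM
  have hsub : {ξ : Fin k → ℂ | (∀ i, Pool.Agent.Y916.Sl.SInt m M (ξ i)) ∧
        ((∃ i, ‖ξ i - τ‖ ≤ L₀) ∨ ¬ GoodS D C₀ Q a b τ Ω ξ)} ⊆
      {ξ : Fin k → ℂ | (∀ i, Pool.Agent.Y916.Sl.SInt m M (ξ i)) ∧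
        ((∃ i, ‖ξ i - τ‖ ≤ L₀) ∨ ExcC n Q a b τ d 1 (V ^ (d + 1)) Ω ξ)} := by
    rintro ξ ⟨hξ, hnot0⟩
    refine ⟨hξ, ?_⟩
    by_cases hs : ∃ i, ‖ξ i - τ‖ ≤ L₀
    · exact Or.inl hs
    have hnot := hnot0.resolve_left hs
    push Not at hs
    right
    by_contra hcon
    apply hnot
    intro ℓ hℓ K hKf hKD T hT hcT
    have hu : ∀ q : Fin (k * r), IsUnit (Ω q.divNat q.modNat) := by
      intro q
      have h3 := EG_block_unit (hT.isUnit _ hcT) q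
      unfold Pm at h3
      rw [Matrix.isUnit_iff_isUnit_det, det_transpose, det_mul] at h3
      exact (Matrix.isUnit_iff_isUnit_det _).2 (isUnit_of_mul_isUnit_right h3)
    refine ⟨hu, ?_⟩
    -- membership in the torsors
    have hmem : ∀ i j, Hf (Hc (n j) (Q j)) (1 / ((a j : ℂ) * ξ i + b j)) *
        E (cm (Am (n j))) (-lgl (a j) (b j) τ (ξ i) (ℓ i)) ∈ Gp (n j) (Q j) := by
      intro i j
      refine Gp_mul (Hf_mem (hD.q j) (hD.tr j) ?_) (Gp_E (hD.q j) _)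
      have h3 := (ne_of_big (ha j) (hD.cL j) (hs i)).2.2
      rw [norm_div, norm_one, div_lt_one (by linarith)]
      exact h3
    -- relations
    have hrel : ∀ g : ∀ q, (Matrix (Fin (nb n k q)) (Fin (nb n k q)) ℂ)ˣ, (∀ q, g q ∈ GB (bf Q Ω q)) →
        Vr (V ^ (d + 1)) d (fun v : Σ q : Fin (k * r), Fin (nb n k q) × Fin (nb n k q) =>
            Pm Q a b τ Ω ξ ℓ v.1 v.2.1 v.2.2)
          (fun v => ((g v.1 : Matrix (Fin (nb n k v.1)) (Fin (nb n k v.1)) ℂ) * Pm Q a b τ Ω ξ ℓ v.1) v.2.1 v.2.2) := by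
      intro g hg F hFd hFV hF0
      by_contra hne
      have hX : ∀ q : Fin (k * r), ∃ X : Matrix (Fin (n q.modNat)) (Fin (n q.modNat)) ℂ,
          X ∈ Gp (n q.modNat) (Q q.modNat) ∧
          (X * Ω q.divNat q.modNat)ᵀ = (g q : Matrix (Fin (nb n k q)) (Fin (nb n k q)) ℂ) * Pm Q a b τ Ω ξ ℓ q := by
        intro q
        obtain ⟨X, hX1, hX2⟩ := Gp_act (hmem q.divNat q.modNat) (hu q) (hg q)
        exact ⟨X, hX1, hX2⟩
      choose X' hX1 hX2 using hX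
      obtain ⟨X, hX⟩ := exists_pairs (A := fun p : Fin k × Fin r => Matrix (Fin (n p.2)) (Fin (n p.2)) ℂ) X'
      refine hcon ⟨ℓ, hℓ, ⊥, inferInstance, ?_, MvPolynomial.rename (tau n k) F,
        (MvPolynomial.totalDegree_rename_le _ _).trans hFd, fun s => Submodule.subset_span (coeff_rn _ _ F hFV s), ?_,
        ℓ, fun i j => X (i, j), ?_, ?_⟩
      · rw [IntermediateField.finrank_bot]
      · rw [MvPolynomial.aeval_rename]
        exact hF0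
      · intro i j
        have h3 : ∀ p : Fin k × Fin r, X p ∈ Gp (n p.2) (Q p.2) := by
          intro p
          obtain ⟨q, rfl⟩ := dm_surj p
          rw [hX q]
          exact hX1 q
        exact h3 (i, j)
      · rw [MvPolynomial.aeval_rename]
        intro h3
        apply hne
        rw [← h3]
        congr 2
        funext v
        obtain ⟨q, a', b'⟩ := v
        show ((g q : Matrix (Fin (nb n k q)) (Fin (nb n k q)) ℂ) * Pm Q a b τ Ω ξ ℓ q) a' b' =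
          (X (q.divNat, q.modNat) * Ω q.divNat q.modNat) b' a'
        rw [← hX2 q, hX q]
        rfl
    have hRl : ∀ g : ∀ q, (Matrix (Fin (nb n k q)) (Fin (nb n k q)) ℂ)ˣ, (∀ q, g q ∈ GB (bf Q Ω q)) →
        Rl ⊥ d (EG C₀ (Pm Q a b τ Ω ξ ℓ)) (EG 1 (fun q => (g q : Matrix (Fin (nb n k q)) (Fin (nb n k q)) ℂ)) *
          EG C₀ (Pm Q a b τ Ω ξ ℓ)) := by
      intro g hg
      refine Rl_of hKV (PhiG_DC h1V fun a b => hV3 (a, b)) (hrel g hg) (fun b => PhiG_eval C₀ _ b) fun b => ?_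
      rw [EG_mul, Matrix.one_mul]
      exact PhiG_eval C₀ _ b
    have hcardm : Fintype.card (IG (Fin r₀) (nb n k)) ≤ r₀ + ∑ q, nb n k q := by
      rw [card_IG, Fintype.card_fin]
    have hrelG : ∀ g ∈ Ug (GG (Fin r₀) (fun q => GB (bf Q Ω q))), Rl ⊥ d (EG C₀ (Pm Q a b τ Ω ξ ℓ))
        (g * EG C₀ (Pm Q a b τ Ω ξ ℓ)) := by
      intro g hg
      obtain ⟨g', hg', rfl⟩ := Ug_le _ hg
      exact hRl g' fun i => hg' i (Set.mem_univ i)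
    obtain ⟨hcomm, -, -⟩ := hd (IG (Fin r₀) (nb n k)) hcardm _ (GG (Fin r₀) fun q => GB (bf Q Ω q)) hrelG K hKf hKD T
      hT hcT
    intro g hg
    refine all_blocksG fun q => ?_
    refine hcomm _ ?_
    have h5 : g q ∈ ⁅Ug (GB (bf Q Ω q)), Ug (GB (bf Q Ω q))⁆ := cl_perf (fm_Clf (hu q)) (hg q)
    have h6 : em (Fin r₀) q (g q) ∈
      (⁅Ug (GB (bf Q Ω q)), Ug (GB (bf Q Ω q))⁆ : Subgroup _).map (em (Fin r₀) q) := ⟨g q, h5, rfl⟩
    rw [Subgroup.map_commutator] at h6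
    exact Subgroup.commutator_mono em_Ug em_Ug h6
  refine ⟨h1.subset hsub, le_trans ?_ h2⟩
  exact_mod_cast Set.ncard_le_ncard hsub h1

end main

end Pool.Agent.Run7.h696.CA.SUB
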