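import Pool.Agent.Run7.h696.CA.TUPBL

/-!
# Almost all tuples of algebraic fibres, shifted by an integer
-/

set_option autoImplicit false

open PowerSeries Matrix
open Pool.Agent.Y113 hiding Bm
open Pool.Agent.Y120.GF Pool.Agent.Y120.GH Pool.Agent.Y119.HZ
open Pool.Agent.Y119.HY (cm E Hf Yf E_mul_neg)
open Pool.Agent.Run7.h696.CF

namespace Pool.Agent.Run7.h696.CA

open Pool.Agent.Run7.h225.HG Pool.Agent.Run7.h225.HG.TUPA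

theorem aint_shift {m : ℕ} {T : ℝ} {ξ : ℂ} (hξ : Pool.Agent.Y916.Sl.AInt m T ξ) (τ : ℤ) :
    Pool.Agent.Y916.Sl.AInt m (T + |(τ : ℝ)|) (ξ - τ) := by
  obtain ⟨f, h1, h2, h3, h4⟩ := hξ
  have hC : (Polynomial.aeval (ξ - (τ : ℂ))) (Polynomial.X + Polynomial.C τ : Polynomial ℤ) = ξ := by
    simp
  refine ⟨f.comp (Polynomial.X + Polynomial.C τ), h1.comp_X_add_C _, ?_, ?_, fun z hz => ?_⟩
  · rw [Polynomial.natDegree_comp, Polynomial.natDegree_X_add_C, mul_one, h2]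
  · rw [Polynomial.aeval_comp, hC, h3]
  · rw [Polynomial.aeval_comp] at hz
    have h5 : (Polynomial.aeval z) (Polynomial.X + Polynomial.C τ : Polynomial ℤ) = z + τ := by simp
    rw [h5] at hz
    have h6 := h4 _ hz
    calc ‖z‖ = ‖(z + τ) - τ‖ := by rw [add_sub_cancel_right]
      _ ≤ ‖z + τ‖ + ‖(τ : ℂ)‖ := norm_sub_le _ _
      _ ≤ T + |(τ : ℝ)| := by
        have h7 : ‖(τ : ℂ)‖ = |(τ : ℝ)| := by
          rw [← Complex.ofReal_intCast, Complex.norm_real, Real.norm_eq_abs]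
        rw [h7]
        linarith

variable {n L₀ : ℕ} {N : Matrix (Fin n) (Fin n) ℚ} {H W : Matrix (Fin n) (Fin n) ℚ⟦X⟧}
  {T : ℂ → Set (Matrix (Fin n) (Fin n) ℂ)}

/-- **almost all tuples, absolute bound** -/
theorem tupA0 (hL : 1 ≤ L₀) (hS : SysL L₀ n N H W) (Ns : Matrix (Fin n) (Fin n) ℚ) (hT : TVL L₀ H T) (k m δ d D : ℕ) :
    ∃ c : ℝ, 0 < c ∧ ∃ C : ℝ, 0 ≤ C ∧ ∀ V : Submodule ℚ ℂ, Module.Finite ℚ V → Module.finrank ℚ V ≤ D →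
      ∀ (Ω : Fin k → Matrix (Fin n) (Fin n) ℂ) (M : ℕ), 1 ≤ M →
      {α : Fin k → ℂ | (∀ i, Pool.Agent.Y916.Sl.AInt m M (α i)) ∧
        ((∃ i, ‖α i‖ ≤ L₀) ∨ ExcV Ns H T δ d V Ω α)}.Finite ∧
      ({α : Fin k → ℂ | (∀ i, Pool.Agent.Y916.Sl.AInt m M (α i)) ∧
        ((∃ i, ‖α i‖ ≤ L₀) ∨ ExcV Ns H T δ d V Ω α)}.ncard : ℝ) ≤
        C * (M : ℝ) ^ (((k * Pool.Agent.Y916.Sl.Mm m : ℕ) : ℝ) - c) := by
  classical
  obtain ⟨δ₁, c, hc, C, hC, h1⟩ := Pool.Agent.Y916.Af.tupDs (nrhL hS) (szL hS) k m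
    (δ * dg (fun _ : Fin k => n)) d ((Fintype.card (Option (Ix (fun _ : Fin k => n)))) ^ δ * D)
  obtain ⟨C₂, hC₂, h₂⟩ := Pool.Agent.Y916.Af.small_tuples m k L₀ hL
  refine ⟨min c 1, lt_min hc one_pos, C + C₂, by positivity, fun V hV hVD Ω M hM => ?_⟩
  have hT1 : (1 : ℝ) ≤ M := by exact_mod_cast hM
  obtain ⟨hfin, hrank⟩ := Vn_fin (n := fun _ : Fin k => n) Ω V δ
  obtain ⟨h2, h3⟩ := h1 (Vn (n := fun _ : Fin k => n) Ω V δ) hfin (hrank.trans (Nat.mul_le_mul_left _ hVD)) M hM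
  have h4 := h₂ M hM
  set B2 := (Fintype.piFinset fun _ : Fin k => Pool.Agent.Y916.Sl.NF m M).filter fun α => ∃ i, ‖α i‖ ≤ L₀ with hB2'
  set X := {α : Fin k → ℂ | (∀ i, Pool.Agent.Y916.Sl.AInt m M (α i)) ∧ Pool.Agent.Y916.Af.ExcD δ₁ (hfg H)
    (δ * dg (fun _ : Fin k => n)) d (Vn (n := fun _ : Fin k => n) Ω V δ) α} with hX
  have hsub : {α : Fin k → ℂ | (∀ i, Pool.Agent.Y916.Sl.AInt m M (α i)) ∧
      ((∃ i, ‖α i‖ ≤ L₀) ∨ ExcV Ns H T δ d V Ω α)} ⊆ X ∪ (B2 : Set (Fin k → ℂ)) := by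
    rintro α ⟨hα, hE⟩
    by_cases hs : ∃ i, ‖α i‖ ≤ L₀
    · right
      rw [hB2', Finset.mem_coe, Finset.mem_filter, Fintype.mem_piFinset]
      exact ⟨fun i => Pool.Agent.Y916.Sl.mem_NF.2 (hα i), hs⟩
    · left
      have hE' := hE.resolve_left hs
      push Not at hs
      exact ⟨hα, exc_of' Ns hT δ₁ hL (fun i => hs i) hE'⟩
  have hfin2 : (X ∪ (B2 : Set (Fin k → ℂ))).Finite := h2.union (Finset.finite_toSet _)
  refine ⟨hfin2.subset hsub, ?_⟩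
  have h5 := (Set.ncard_le_ncard hsub hfin2).trans (Set.ncard_union_le _ _)
  rw [Set.ncard_coe_finset] at h5
  have h6 : (M : ℝ) ^ (((k * Pool.Agent.Y916.Sl.Mm m : ℕ) : ℝ) - c) ≤
      (M : ℝ) ^ (((k * Pool.Agent.Y916.Sl.Mm m : ℕ) : ℝ) - min c 1) :=
    Real.rpow_le_rpow_of_exponent_le hT1 (by linarith [min_le_left c 1])
  have h7 : (M : ℝ) ^ (((k * Pool.Agent.Y916.Sl.Mm m : ℕ) : ℝ) - 1) ≤
      (M : ℝ) ^ (((k * Pool.Agent.Y916.Sl.Mm m : ℕ) : ℝ) - min c 1) :=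
    Real.rpow_le_rpow_of_exponent_le hT1 (by linarith [min_le_right c 1])
  calc _ ≤ (X.ncard : ℝ) + B2.card := by exact_mod_cast h5
    _ ≤ C * (M : ℝ) ^ (((k * Pool.Agent.Y916.Sl.Mm m : ℕ) : ℝ) - min c 1) +
        C₂ * (M : ℝ) ^ (((k * Pool.Agent.Y916.Sl.Mm m : ℕ) : ℝ) - min c 1) :=
        add_le_add (h3.trans (mul_le_mul_of_nonneg_left h6 hC)) (h4.trans (mul_le_mul_of_nonneg_left h7 hC₂))
    _ = _ := by ring

/-- **almost all tuples, shifted fibres** -/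
theorem tupA1 (hL : 1 ≤ L₀) (hS : SysL L₀ n N H W) (Ns : Matrix (Fin n) (Fin n) ℚ) (hT : TVL L₀ H T) (τ : ℤ)
    (k m δ d D : ℕ) (hm : 1 ≤ m) :
    ∃ c : ℝ, 0 < c ∧ ∃ C : ℝ, 0 ≤ C ∧ ∀ V : Submodule ℚ ℂ, Module.Finite ℚ V → Module.finrank ℚ V ≤ D →
      ∀ (Ω : Fin k → Matrix (Fin n) (Fin n) ℂ) (M : ℕ), 1 ≤ M →
      {ξ : Fin k → ℂ | (∀ i, Pool.Agent.Y916.Sl.SInt m M (ξ i)) ∧
        ((∃ i, ‖ξ i - τ‖ ≤ L₀) ∨ ExcV Ns H T δ d V Ω fun i => ξ i - τ)}.Finite ∧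
      ({ξ : Fin k → ℂ | (∀ i, Pool.Agent.Y916.Sl.SInt m M (ξ i)) ∧
        ((∃ i, ‖ξ i - τ‖ ≤ L₀) ∨ ExcV Ns H T δ d V Ω fun i => ξ i - τ)}.ncard : ℝ) ≤
        C * (M : ℝ) ^ (-c) * ({ξ : ℂ | Pool.Agent.Y916.Sl.SInt m M ξ}.ncard : ℝ) ^ k := by
  classical
  obtain ⟨c, hc, C, hC, h1⟩ := tupA0 hL hS Ns hT k m δ d D
  obtain ⟨c₁, hc₁, hmany⟩ := Pool.Agent.Y916.Sl.many m hm
  set K := k * Pool.Agent.Y916.Sl.Mm m with hK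
  refine ⟨c, hc, C * (1 + τ.natAbs : ℝ) ^ K / c₁ ^ k, by positivity, fun V hV hVD Ω M hM => ?_⟩
  have hM1 : (1 : ℝ) ≤ M := by exact_mod_cast hM
  have hM0 : (0 : ℝ) < M := by linarith
  obtain ⟨h2, h3⟩ := h1 V hV hVD Ω (M + τ.natAbs) (by omega)
  set S := {ξ : Fin k → ℂ | (∀ i, Pool.Agent.Y916.Sl.SInt m M (ξ i)) ∧
        ((∃ i, ‖ξ i - τ‖ ≤ L₀) ∨ ExcV Ns H T δ d V Ω fun i => ξ i - τ)} with hSd
  set A := {α : Fin k → ℂ | (∀ i, Pool.Agent.Y916.Sl.AInt m ((M + τ.natAbs : ℕ) : ℝ) (α i)) ∧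
        ((∃ i, ‖α i‖ ≤ L₀) ∨ ExcV Ns H T δ d V Ω α)} with hA
  set f : (Fin k → ℂ) → (Fin k → ℂ) := fun ξ i => ξ i - τ with hf
  have hinj : Function.Injective f := by
    intro ξ ξ' h
    funext i
    have h5 := congrFun h i
    rw [hf] at h5
    exact sub_left_injective h5
  have habs : ((M + τ.natAbs : ℕ) : ℝ) = M + |(τ : ℝ)| := by
    push_cast
    rw [Nat.cast_natAbs, Int.cast_abs]
  have hmap : Set.MapsTo f S A := by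
    rintro ξ ⟨hξ, hE⟩
    refine ⟨fun i => ?_, hE⟩
    rw [habs]
    exact aint_shift (Pool.Agent.Y916.Sl.SInt.aint (hξ i)) τ
  have hfin : S.Finite := Set.Finite.of_injOn hmap hinj.injOn h2
  refine ⟨hfin, ?_⟩
  have h4 : (S.ncard : ℝ) ≤ A.ncard := by exact_mod_cast Set.ncard_le_ncard_of_injOn f hmap hinj.injOn h2
  have h5 : (((M + τ.natAbs : ℕ) : ℕ) : ℝ) ^ (((K : ℕ) : ℝ) - c) ≤
      (1 + τ.natAbs : ℝ) ^ K * (M : ℝ) ^ (((K : ℕ) : ℝ) - c) := by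
    have hb : (M : ℝ) ≤ ((M + τ.natAbs : ℕ) : ℝ) := by exact_mod_cast Nat.le_add_right _ _
    have hb0 : (0 : ℝ) < ((M + τ.natAbs : ℕ) : ℝ) := by linarith
    have hb2 : ((M + τ.natAbs : ℕ) : ℝ) ≤ (1 + τ.natAbs) * M := by
      push_cast
      have : (0 : ℝ) ≤ τ.natAbs := Nat.cast_nonneg _
      nlinarith
    rw [sub_eq_add_neg, Real.rpow_add hb0, Real.rpow_add hM0, Real.rpow_natCast, Real.rpow_natCast, ← mul_assoc, ← mul_pow]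
    refine mul_le_mul (pow_le_pow_left₀ hb0.le hb2 K) ?_ (by positivity) (by positivity)
    exact Real.rpow_le_rpow_of_nonpos hM0 hb (by linarith)
  have h6 := Pool.Agent.Y916.Sl.prop_bound (c := c) (C := C * (1 + τ.natAbs : ℝ) ^ K) (k := k) hc₁ (by positivity) hM (hmany M hM)
  calc (S.ncard : ℝ) ≤ A.ncard := h4
    _ ≤ C * (((M + τ.natAbs : ℕ) : ℕ) : ℝ) ^ (((K : ℕ) : ℝ) - c) := h3
    _ ≤ C * ((1 + τ.natAbs : ℝ) ^ K * (M : ℝ) ^ (((K : ℕ) : ℝ) - c)) := mul_le_mul_of_nonneg_left h5 hC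
    _ = (C * (1 + τ.natAbs : ℝ) ^ K) * (M : ℝ) ^ (((K : ℕ) : ℝ) - c) := by ring
    _ ≤ _ := h6

end Pool.Agent.Run7.h696.CA
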