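import Pool.Agent.Run7.h225.HG.WINA
import Pool.Agent.Run7.h696.CA.TUPBL

/-!
# Windows at algebraic points for systems with a smaller radius of convergence

Adapted from `Run7/h225/HP/WINB.lean`.
-/

set_option autoImplicit false

open PowerSeries Matrix
open Pool.Agent.Y113 hiding Bm
open Pool.Agent.Y120.GF Pool.Agent.Y120.GH Pool.Agent.Y119.HZ
open Pool.Agent.Y119.HY (cm E Hf Yf Rel Gal Sol E_mul_neg)
open Pool.Agent.Y916.Al (Ht)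
open Pool.Agent.Run7.h696.CF

namespace Pool.Agent.Run7.h696.CA

open Pool.Agent.Run7.h225.HG

variable {n k L₀ : ℕ} {N : Matrix (Fin n) (Fin n) ℚ} {H W : Matrix (Fin n) (Fin n) ℚ⟦X⟧}
  {T : ℂ → Set (Matrix (Fin n) (Fin n) ℂ)}

open Pool.Agent.Run7.h225.HG.WINA (Yg yg_mem sKg sKg_deg sKg_aeval) in
theorem yg_irrL (hT : TVL L₀ H T) {z : Fin k → ℂ} (hz : ∀ j, ‖z j‖ < 1 / L₀) (d : ℕ) :
    Pool.Agent.Y916.Af.IrrD d (Yg T z) :=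
  Pool.Agent.Y916.Af.prod_irrD _ fun j => Pool.Agent.Y916.Af.opt_irrD _
    (Pool.Agent.Y916.Af.irrD_of_irr (hT.irr (z j) (hz j)) d)

open Pool.Agent.Run7.h225.HG.WINA (Yg yg_mem sKg sKg_deg sKg_aeval evc_hfg) in
open Pool.Agent.Y119.HA (Cx cpt yp aeval_degm) in
/-- **windows** -/
theorem winL (hL : 1 ≤ L₀) (hS : SysL L₀ n N H W) (Ns : Matrix (Fin n) (Fin n) ℚ) (hT : TVL L₀ H T) :
    ∃ G0 : ℕ, 1 ≤ G0 ∧ ∀ G : ℕ, G0 ≤ G → ∀ (Ω : Matrix (Fin n) (Fin n) ℂ) (q k m d δ A : ℕ), ∃ Ex : ℕ, ∀ (M : ℕ) (ξ : ℂ),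
      ((M : ℝ) + 2) ^ Ex ≤ ‖ξ‖ → Ht m A ξ → ∀ w : Fin q → ℂ, ∃ S : Finset ℕ,
      (S.card : Cardinal) ≤ Algebra.trdeg ℚ (IntermediateField.adjoin ℚ (insert (2 * Real.pi * Complex.I)
        (Set.range fun p : Fin n × Fin n => Ω p.1 p.2))) + q + 1 ∧
      ∀ u : Fin k → ℕ, Function.Injective u → (∀ j, 1 ≤ u j ∧ u j ≤ M ∧ u j ∉ S) →
      (∀ j, (L₀ : ℝ) < ‖ξ - ((G * u j : ℕ) : ℂ)‖) ∧
      ∀ ℓ : Fin k → ℂ, (∀ j, Complex.exp (ℓ j) = ξ - ((G * u j : ℕ) : ℂ)) →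
      ∀ K : IntermediateField ℚ ℂ, FiniteDimensional ℚ K → Module.finrank ℚ K ≤ d →
      ∀ P : MvPolynomial (Cx n q k) K, P.totalDegree ≤ δ →
      MvPolynomial.aeval (cpt Ω w ℓ
        (fun j => Hf (Hcg H) (1 / (ξ - ((G * u j : ℕ) : ℂ))) * E (cm Ns) (-ℓ j) * Ω)) P = 0 →
      ∀ (l : Fin k → ℂ) (g : Fin k → Matrix (Fin n) (Fin n) ℂ), (∀ j, g j ∈ T (1 / (ξ - ((G * u j : ℕ) : ℂ)))) →
      MvPolynomial.aeval (cpt Ω w l (fun j => g j * E (cm Ns) (-l j) * Ω)) P = 0 := by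
  classical
  obtain ⟨G0, hG0, hW⟩ := Pool.Agent.Y916.Af.winDs (nrhL hS) (szL hS)
  refine ⟨max G0 L₀, hG0.trans (le_max_left _ _), fun G hG' Ω q k m d δ A => ?_⟩
  have hG : G0 ≤ G := (le_max_left _ _).trans hG'
  have hGL : L₀ ≤ G := (le_max_right _ _).trans hG'
  obtain ⟨δ₁, Ex, h1⟩ := hW G hG (n * n) (fun a => Ω (ix n a).1 (ix n a).2) q k m d (δ * (n + 2)) A
  have hG1' : 1 ≤ G := hG0.trans hG
  have hGR : (1 : ℝ) ≤ G := by exact_mod_cast hG1'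
  have hGLR : (L₀ : ℝ) ≤ G := by exact_mod_cast hGL
  refine ⟨Ex + G + 2, fun M ξ hξ hHt w => ?_⟩
  have hH0 : (0 : ℝ) ≤ M := Nat.cast_nonneg M
  have hH2 : (2 : ℝ) ≤ (M : ℝ) + 2 := by linarith
  have hH1 : (1 : ℝ) ≤ (M : ℝ) + 2 := by linarith
  have hGp : (G : ℝ) ≤ ((M : ℝ) + 2) ^ G := by
    refine le_trans ?_ (pow_le_pow_left₀ (by norm_num) hH2 G)
    exact_mod_cast (Nat.lt_two_pow_self (n := G)).le
  have hbig : (G : ℝ) * (M + 2) * (M + 2) ≤ ‖ξ‖ := by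
    refine le_trans ?_ ((pow_le_pow_right₀ hH1 (by omega : G + 2 ≤ Ex + G + 2)).trans hξ)
    rw [pow_add, pow_two, mul_assoc]
    exact mul_le_mul_of_nonneg_right hGp (by positivity)
  obtain ⟨S, hSc, h2⟩ := h1 M ξ ((pow_le_pow_right₀ hH1 (by omega : Ex ≤ Ex + G + 2)).trans hξ) hHt w
  have hrange : Set.range (fun a => Ω (ix n a).1 (ix n a).2) = Set.range fun p : Fin n × Fin n => Ω p.1 p.2 := by
    ext x
    constructor
    · rintro ⟨a, rfl⟩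
      exact ⟨ix n a, rfl⟩
    · rintro ⟨p, rfl⟩
      exact ⟨(ix n).symm p, by simp⟩
  rw [hrange] at hSc
  refine ⟨S, hSc, fun u hu hub => ?_⟩
  have hα : ∀ j, (L₀ : ℝ) < ‖ξ - ((G * u j : ℕ) : ℂ)‖ := by
    intro j
    have h5 := norm_sub_norm_le ξ ((G * u j : ℕ) : ℂ)
    rw [Complex.norm_natCast] at h5
    have h6 : ((G * u j : ℕ) : ℝ) ≤ G * M := by
      push_cast
      exact mul_le_mul_of_nonneg_left (by exact_mod_cast (hub j).2.1) (by linarith)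
    nlinarith
  refine ⟨hα, fun ℓ hℓ K hKf hKd P hPd hP0 l g hg => ?_⟩
  have hL0 : (0 : ℝ) < L₀ := by exact_mod_cast hL
  have hz : ∀ j, ‖1 / (ξ - ((G * u j : ℕ) : ℂ))‖ < 1 / L₀ := by
    intro j
    rw [norm_div, norm_one]
    exact one_div_lt_one_div_of_lt hL0 (hα j)
  have h3 : Pool.Agent.Y916.Af.ptc (hfg H) (fun j => ξ - ((G * u j : ℕ) : ℂ)) ℓ =
      yp (fun j => Hf (Hcg H) (1 / (ξ - ((G * u j : ℕ) : ℂ)))) ℓ := by
    funext a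
    rcases a with ⟨i, _ | j⟩
    · rfl
    · exact evc_hfg _ _
  have h4 := h2 u hu hub ℓ hℓ (Yg T fun j => 1 / (ξ - ((G * u j : ℕ) : ℂ))) (yg_irrL hT hz δ₁) (by
    rw [h3]
    exact yg_mem (fun i => hT.pt _ (hz i)) ℓ) (by
    intro y hy j
    obtain ⟨g', hg', h4⟩ := hy j
    have h5 : (fun i => y (j, some i)) = fun i => g' (ix n i).1 (ix n i).2 := h4
    rw [h5]
    exact hT.vc _ (hz j) g' hg') K hKf hKd (MvPolynomial.aeval (sKg K Ns q k) P) (aeval_degm _ (sKg_deg K Ns q k) P hPd) (by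
    rw [h3, sKg_aeval]
    exact hP0) (yp g l) (yg_mem hg l)
  rw [sKg_aeval] at h4
  exact h4

end Pool.Agent.Run7.h696.CA
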