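import Pool.Agent.Run7.h696.CA.WINL
import Pool.Agent.Run7.h696.CA.FinB

/-!
# Windows at algebraic points: hyperlogarithms and correlated families

Adapted from `Run7/h225/HP/WINP.lean`.
-/

set_option autoImplicit false

open PowerSeries Matrix
open Pool.Agent.Y113 hiding Bm
open Pool.Agent.Y120.GF Pool.Agent.Y120.GH Pool.Agent.Y119.HZ
open Pool.Agent.Y119.HY (Am Jm Bm cm E Hf Hc Yf QD Ac_nil E_zero E_mul_neg E_add)
open Run7.h893.HO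
open Pool.Agent.Y916.Al (Ht)
open Pool.Agent.Y119.HA (Cx cpt)
open Pool.Agent.Run7.h225.HG Pool.Agent.Run7.h696.CF Pool.Agent.Run7.h696.CP
open Pool.Agent.Run7.h225.HP (n2 bl i0 i1 bl_cases bl_00 bl_11 bl_mul Hf_bl E_bl)

namespace Pool.Agent.Run7.h696.CA

section coord

variable {n p m W k q : ℕ}

/-- the coordinates -/
def rw2 (e : Wd m W → Fin p × Fin p) (k n q : ℕ) : Cx n q k ⊕ Fin k × Wd m W → Cx (∑ j, n2 n p j) q k
  | Sum.inl (Sum.inl (Sum.inl a)) => Sum.inl (Sum.inl (i0 n p a.1, i0 n p a.2))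
  | Sum.inl (Sum.inl (Sum.inr a)) => Sum.inl (Sum.inr a)
  | Sum.inl (Sum.inr v) => Sum.inr (rh e k n (Sum.inl v))
  | Sum.inr a => Sum.inr (rh e k n (Sum.inr a))

lemma cpt_rw2 (e : Wd m W → Fin p × Fin p) (Ω : Matrix (Fin n) (Fin n) ℂ) (w : Fin q → ℂ) (l : Fin k → ℂ)
    (X : Fin k → Matrix (Fin n) (Fin n) ℂ) (Y : Fin k → Matrix (Fin p) (Fin p) ℂ) :
    cpt (bl Ω (1 : Matrix (Fin p) (Fin p) ℂ)) w l (fun i => bl (X i) (Y i)) ∘ rw2 e k n q =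
      Sum.elim (cpt Ω w l X) fun a => Y a.1 (e a.2).1 (e a.2).2 := by
  funext v
  rcases v with ((a | a) | v) | a
  · exact bl_00 _ _ _ _
  · rfl
  · exact congrFun (pw_rh e l X Y) (Sum.inl v)
  · exact congrFun (pw_rh e l X Y) (Sum.inr a)

lemma adj_bl (Ω : Matrix (Fin n) (Fin n) ℂ) :
    IntermediateField.adjoin ℚ (insert (2 * Real.pi * Complex.I)
      (Set.range fun a : Fin (∑ j, n2 n p j) × Fin (∑ j, n2 n p j) => bl Ω (1 : Matrix (Fin p) (Fin p) ℂ) a.1 a.2)) =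
    IntermediateField.adjoin ℚ (insert (2 * Real.pi * Complex.I)
      (Set.range fun a : Fin n × Fin n => Ω a.1 a.2)) := by
  apply le_antisymm
  · rw [IntermediateField.adjoin_le_iff]
    rintro x (rfl | ⟨a, rfl⟩)
    · exact IntermediateField.subset_adjoin _ _ (Set.mem_insert _ _)
    · rcases bl_cases (n := n) (m := p) a.1 a.2 with h | ⟨i, k, h⟩ | ⟨i, k, h⟩
      · simp only [h]
        exact zero_mem _
      · simp only [h]
        exact IntermediateField.subset_adjoin _ _ (Set.mem_insert_of_mem _ ⟨⟨i, k⟩, rfl⟩)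
      · simp only [h, Matrix.one_apply]
        split_ifs
        · exact one_mem _
        · exact zero_mem _
  · rw [IntermediateField.adjoin_le_iff]
    rintro x (rfl | ⟨a, rfl⟩)
    · exact IntermediateField.subset_adjoin _ _ (Set.mem_insert _ _)
    · exact IntermediateField.subset_adjoin _ _ (Set.mem_insert_of_mem _ ⟨(i0 n p a.1, i0 n p a.2), bl_00 _ _ _ _⟩)

end coord

variable {r : ℕ} {n : Fin r → ℕ} {Q : Fin r → Polynomial ℚ} {a b : Fin r → ℚ} {τ : ℤ}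
  {V' : ∀ j, Matrix (Fin (n j)) (Fin (n j)) ℚ⟦X⟧} {L₀ m : ℕ} {s : Fin m → ℤ}

/-- the logarithm of `(a ξ + b) / a` for a logarithm `l` of `ξ - τ` -/
noncomputable def lg0 (a b : ℚ) (τ : ℤ) (ξ l : ℂ) : ℂ :=
  l + Complex.log (((a : ℂ) * ξ + b) / ((a : ℂ) * (ξ - τ)))

lemma E_lg0 {n : ℕ} (a b : ℚ) (τ : ℤ) (ξ l : ℂ) :
    E (cm (Am n)) (-lgl a b τ ξ l) * E (cm (Am n)) (Complex.log (a : ℂ)) = E (cm (Am n)) (-lg0 a b τ ξ l) := by
  rw [← E_add Ac_nil]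
  congr 1
  unfold lgl lg0
  ring

/-- the values of the systems -/
lemma Hf_win (hS : ∀ j, Sys (n j) (Am (n j)) (Bm (n j) (Q j)) (Hp (n j) (Q j)) (V' j))
    (hD : DatL n Q (fun j => ((-b j / a j - τ : ℚ) : ℝ)) (fun j => ((1 / a j : ℚ) : ℝ)) L₀) (ha : ∀ j, a j ≠ 0)
    (Ω : ∀ j, Matrix (Fin (n j)) (Fin (n j)) ℂ) {ξ : ℂ} (hbig : (L₀ : ℝ) < ‖ξ - τ‖) (ℓ : ℂ) :
    Hf (Hcg (blk n ℚ⟦X⟧ fun j => HH (-b j / a j - τ) (1 / a j) (Am (n j)) (Hp (n j) (Q j))))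
        (1 / (ξ - τ)) * E (cm (blk n ℚ fun j => Am (n j))) (-ℓ) * blk n ℂ Ω =
      blk n ℂ fun j => Hf (Hc (n j) (Q j)) (1 / ((a j : ℂ) * ξ + b j)) *
          E (cm (Am (n j))) (-lg0 (a j) (b j) τ ξ ℓ) * Ω j := by
  have hL0 : (0 : ℝ) < L₀ := hD.L0
  have hz : ‖1 / (ξ - τ)‖ < 1 / L₀ := by
    rw [norm_div, norm_one]
    exact one_div_lt_one_div_of_lt hL0 hbig
  rw [Hf_b hS hD hz, E_b]
  rw [← map_mul, ← map_mul]
  congr 1
  funext j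
  obtain ⟨h2, h3, -⟩ := ne_of_big (ha j) (hD.cL j) hbig
  rw [← E_lg0, ← Matrix.mul_assoc, Y_shift (ha j) h2 h3, Pi.mul_apply, Pi.mul_apply]
  have h4 : E (cm (Am (n j))) (-Complex.log (a j : ℂ)) * E (cm (Am (n j))) (Complex.log (a j : ℂ)) = 1 := by
    rw [← E_add Ac_nil, neg_add_cancel, E_zero Ac_nil]
  simp only [Matrix.mul_assoc]
  rw [← Matrix.mul_assoc (E (cm (Am (n j))) (-Complex.log (a j : ℂ))), h4, Matrix.one_mul]

/-- **windows** -/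
theorem win_cm (hL : 1 ≤ L₀) (hS : ∀ j, Sys (n j) (Am (n j)) (Bm (n j) (Q j)) (Hp (n j) (Q j)) (V' j))
    (hD : DatL n Q (fun j => ((-b j / a j - τ : ℚ) : ℝ)) (fun j => ((1 / a j : ℚ) : ℝ)) L₀) (ha : ∀ j, a j ≠ 0)
    (hsi : Function.Injective s) (hs0 : ∀ i, s i ≠ 0) (hsL : ∀ i, |(s i : ℝ)| ≤ L₀) (W : ℕ) :
    ∃ G0 : ℕ, 1 ≤ G0 ∧ ∀ G : ℕ, G0 ≤ G → ∀ (Ω : ∀ j, Matrix (Fin (n j)) (Fin (n j)) ℂ) (q k m' d δ A : ℕ), ∃ Ex : ℕ,
      ∀ (M : ℕ) (ζ : ℂ), ((M : ℝ) + 2) ^ Ex ≤ ‖ζ‖ → Ht m' A ζ → ∀ w : Fin q → ℂ, ∃ S : Finset ℕ,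
      (S.card : Cardinal) ≤ Algebra.trdeg ℚ (IntermediateField.adjoin ℚ (insert (2 * Real.pi * Complex.I)
        (Set.range fun p : Σ j : Fin r, Fin (n j) × Fin (n j) => Ω p.1 p.2.1 p.2.2))) + q + 1 ∧
      ∀ u : Fin k → ℕ, Function.Injective u → (∀ i, 1 ≤ u i ∧ u i ≤ M ∧ u i ∉ S) →
      ∀ ξ : Fin k → ℂ, (∀ i, ξ i - τ = ζ - ((G * u i : ℕ) : ℂ)) →
      (∀ i, (L₀ : ℝ) < ‖ξ i - τ‖) ∧
      ∀ ℓ : Fin k → ℂ, (∀ i, Complex.exp (ℓ i) = ξ i - τ) →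
      ∀ K : IntermediateField ℚ ℂ, FiniteDimensional ℚ K → Module.finrank ℚ K ≤ d →
      ∀ P : MvPolynomial ((((Σ j : Fin r, Fin (n j) × Fin (n j)) ⊕ Fin q) ⊕ Cj n k) ⊕ Fin k × Wd m W) K,
      P.totalDegree ≤ δ →
      MvPolynomial.aeval (Sum.elim (Sum.elim (cs Ω w) (pjc ℓ (fun i j => Hf (Hc (n j) (Q j)) (1 / ((a j : ℂ) * ξ i + b j)) *
          E (cm (Am (n j))) (-lg0 (a j) (b j) τ (ξ i) (ℓ i)) * Ω j)))
        fun p => vz (1 / (ξ p.1 - τ)) (hy s p.2.1)) P = 0 →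
      ∀ (l : Fin k → ℂ) (g : Fin k → ∀ j, Matrix (Fin (n j)) (Fin (n j)) ℂ) (x : Fin k → List (Option (Fin m)) → ℂ),
      (∀ i j, g i j ∈ Gp (n j) (Q j)) → (∀ i, Chr (x i)) →
      MvPolynomial.aeval (Sum.elim (Sum.elim (cs Ω w) (pjc l (fun i j => g i j * Ω j))) fun p => x p.1 p.2.1) P = 0 := by
  have hL1 : (1 : ℝ) ≤ L₀ := by exact_mod_cast hL
  obtain ⟨p, N', H', V'', c, e, hS', hc, he⟩ := pp.plw m s L₀ hL1 hsL W
  have hSys := sysL_b (gq := fun j => -b j / a j - τ) (cq := fun j => 1 / a j) hS hD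
  have hNL := nologs Pool.Agent.Run7.h56.CP.p_TOR Pool.Agent.Run7.h56.CP.p_DER Pool.Agent.Run7.h593.CP.p_WRO
    Pool.Agent.Run7.h593.CP.p_CHA Pool.Agent.Run7.h593.CP.p_RAT (gq := fun j => -b j / a j - τ) (cq := fun j => 1 / a j)
    hL1 hD hS hsi hs0 hsL
  have hN0 : (blk n ℚ fun j => Am (n j)) ^ (∑ j, n j) = 0 := hSys.nil
  obtain ⟨G0, hG0, h⟩ := winL hL (sysL_bl hSys hS')
    (bl (blk n ℚ fun j => Am (n j)) (0 : Matrix (Fin p) (Fin p) ℚ))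
    (tv_bl pp hL1 hsL (nologs0 hsi hs0 hL1 hsL) hSys hNL
      (tvl (gq := fun j => -b j / a j - τ) (cq := fun j => 1 / a j) hS hD) hc)
  refine ⟨G0, hG0, fun G hG Ω q k m' d δ A => ?_⟩
  obtain ⟨Ex, h⟩ := h G hG (bl (blk n ℂ Ω) 1) q k m' d δ A
  refine ⟨Ex, fun M ζ hζ hht w => ?_⟩
  obtain ⟨S, hSc, h⟩ := h M ζ hζ hht w
  have hSc' : (S.card : Cardinal) ≤ Algebra.trdeg ℚ (IntermediateField.adjoin ℚ (insert (2 * Real.pi * Complex.I)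
        (Set.range fun p : Σ j : Fin r, Fin (n j) × Fin (n j) => Ω p.1 p.2.1 p.2.2))) + q + 1 := by
    have h1 := trdeg_eq (adj_bl (p := p) (blk n ℂ Ω))
    rw [trdeg_blk] at h1
    exact h1 ▸ hSc
  refine ⟨S, hSc', fun u hu hub ξ hξ => ?_⟩
  obtain ⟨h1, h⟩ := h u hu hub
  have hbig : ∀ i, (L₀ : ℝ) < ‖ξ i - τ‖ := fun i => by
    rw [hξ i]
    exact h1 i
  refine ⟨hbig, fun ℓ hℓ K hKf hKd P hPd hP0 l g x hg hx => ?_⟩
  have h2 := h ℓ (fun i => by rw [hℓ i, hξ i]) K hKf hKd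
    (MvPolynomial.rename (rw2 e k (∑ j, n j) q) (MvPolynomial.rename (Sum.map (rt n q k) id) P))
    ((MvPolynomial.totalDegree_rename_le _ _).trans ((MvPolynomial.totalDegree_rename_le _ _).trans hPd)) ?_
    l (fun i => bl (blk n ℂ fun j => g i j * E (cm (Am (n j))) (l i)) (Mx c (x i)))
    fun i => ⟨_, ⟨_, fun j => Gp_mul (hg i j) (Gp_E (hD.q j) _), rfl⟩, _, hx i, rfl⟩
  · rw [MvPolynomial.aeval_rename] at h2
    have h3 : (fun i => bl (blk n ℂ fun j => g i j * E (cm (Am (n j))) (l i)) (Mx c (x i)) *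
        E (cm (bl (blk n ℚ fun j => Am (n j)) (0 : Matrix (Fin p) (Fin p) ℚ))) (-l i) * bl (blk n ℂ Ω) 1) =
        fun i => bl (blk n ℂ fun j => g i j * Ω j) (Mx c (x i)) := by
      funext i
      rw [E_bl0 hN0, bl_mul, bl_mul, mul_one, mul_one, E_b, ← map_mul, ← map_mul]
      congr 2
      funext j
      have e1 : E (cm (Am (n j))) (l i) * E (cm (Am (n j))) (-l i) = 1 := E_mul_neg Ac_nil (l i)
      rw [Pi.mul_apply, Pi.mul_apply, Matrix.mul_assoc (g i j), e1, mul_one]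
    rw [h3, cpt_rw2, MvPolynomial.aeval_rename, Sum.elim_comp_map, cpt_rt] at h2
    have h4 : ((fun a : Fin k × Wd m W => Mx c (x a.1) (e a.2).1 (e a.2).2) ∘ id) = fun a => x a.1 a.2.1 := by
      funext a
      exact Mx_e he _ _
    rw [h4] at h2
    exact h2
  · rw [MvPolynomial.aeval_rename]
    have h3 : (fun i => Hf (Hcg (bl (blk n ℚ⟦X⟧ fun j => HH (-b j / a j - τ) (1 / a j) (Am (n j)) (Hp (n j) (Q j))) H'))
        (1 / (ζ - ((G * u i : ℕ) : ℂ))) * E (cm (bl (blk n ℚ fun j => Am (n j)) (0 : Matrix (Fin p) (Fin p) ℚ))) (-ℓ i) *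
        bl (blk n ℂ Ω) 1) =
        fun i => bl (blk n ℂ fun j => Hf (Hc (n j) (Q j)) (1 / ((a j : ℂ) * ξ i + b j)) *
          E (cm (Am (n j))) (-lg0 (a j) (b j) τ (ξ i) (ℓ i)) * Ω j) (Hf (Hcg H') (1 / (ξ i - τ))) := by
      funext i
      rw [← hξ i, E_bl0 hN0, Hf_bl, bl_mul, bl_mul, mul_one, mul_one, Hf_win hS hD ha Ω (hbig i)]
    rw [h3, cpt_rw2, MvPolynomial.aeval_rename, Sum.elim_comp_map, cpt_rt]
    have h4 : ((fun a : Fin k × Wd m W => Hf (Hcg H') (1 / (ξ a.1 - τ)) (e a.2).1 (e a.2).2) ∘ id) =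
        fun a => vz (1 / (ξ a.1 - τ)) (hy s a.2.1) := by
      funext q'
      have h5 : Hf (Hcg H') (1 / (ξ q'.1 - τ)) (e q'.2).1 (e q'.2).2 =
          Pool.Agent.Y916.Al.evc (1 / (ξ q'.1 - τ)) (H' (e q'.2).1 (e q'.2).2) := by
        unfold Hf
        rw [Matrix.of_apply]
        unfold Pool.Agent.Y119.HY.ps Pool.Agent.Y916.Al.evc
        exact tsum_congr fun k => rfl
      have h6 : H' (e q'.2).1 (e q'.2).2 = hy s q'.2.1 := by
        rw [hc, he, Finset.sum_eq_single q'.2]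
        · rw [Pi.single_eq_same, map_one, one_mul]
        · intro w' _ h
          rw [Pi.single_eq_of_ne h, map_zero, zero_mul]
        · intro h
          exact absurd (Finset.mem_univ q'.2) h
      show Hf (Hcg H') (1 / (ξ q'.1 - τ)) (e q'.2).1 (e q'.2).2 = _
      rw [h5, h6]
      rfl
    rw [h4]
    exact hP0

end Pool.Agent.Run7.h696.CA
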